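import Pool.Agent.Q5.BP.Near

/-!
# Approximation by trigonometric polynomials in square mean
-/

set_option autoImplicit false

open MeasureTheory Filter Topology Set Complex
open scoped ENNReal
open Pool.Agent.TH270.MS (wq wq_meas)

namespace Pool.Agent.Q5.BP

variable {h : ℝ → ℂ} {F : ℂ → ℂ} {p κ : ℕ} {η C a B : ℝ} {κ₀ : ℂ}

theorem enorm_add_sq (z w : ℂ) : ‖z + w‖ₑ ^ 2 ≤ 2 * ‖z‖ₑ ^ 2 + 2 * ‖w‖ₑ ^ 2 := by
  have e : ∀ v : ℂ, ‖v‖ₑ ^ 2 = ENNReal.ofReal (‖v‖ ^ 2) := fun v => by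
    rw [← ofReal_norm, ENNReal.ofReal_pow (norm_nonneg _)]
  rw [e, e, e, show (2 : ℝ≥0∞) = ENNReal.ofReal 2 by norm_num, ← ENNReal.ofReal_mul (by norm_num),
    ← ENNReal.ofReal_mul (by norm_num), ← ENNReal.ofReal_add (by positivity) (by positivity)]
  apply ENNReal.ofReal_le_ofReal
  have h1 := norm_add_le z w
  have h2 : ‖z + w‖ ^ 2 ≤ (‖z‖ + ‖w‖) ^ 2 := pow_le_pow_left₀ (norm_nonneg _) h1 2
  nlinarith [sq_nonneg (‖z‖ - ‖w‖)]

theorem enorm_sq_of {z : ℂ} : ‖z‖ₑ ^ 2 = ENNReal.ofReal (‖z‖ ^ 2) := by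
  rw [← ofReal_norm, ENNReal.ofReal_pow (norm_nonneg _)]

theorem lint_wq : ∫⁻ t : ℝ, wq t = ENNReal.ofReal Real.pi := by
  have h1 := lint_cauchy (x := 1) one_pos 0
  simp only [one_pow, sub_zero, div_one] at h1
  exact h1

theorem line_re (x t : ℝ) : ((x : ℂ) + t * I).re = x := by simp

theorem line_im (x t : ℝ) : ((x : ℂ) + t * I).im = t := by simp

/-- one pole away from its height -/
theorem far_term (c : ℂ) {R τ : ℝ} (hτ : |τ| < R) : ∃ M : ℝ≥0∞, M ≠ ⊤ ∧ ∀ x : ℝ, 0 < x →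
    ∫⁻ t in {t : ℝ | R ≤ |t|}, ‖c / ((x : ℂ) + t * I - τ * I)‖ₑ ^ 2 ≤ M := by
  set d : ℝ := R - |τ| with hd
  have hd0 : 0 < d := by linarith
  refine ⟨ENNReal.ofReal (2 * ‖c‖ ^ 2) * ENNReal.ofReal (Real.pi / d),
    ENNReal.mul_ne_top ENNReal.ofReal_ne_top ENNReal.ofReal_ne_top, fun x hx => ?_⟩
  rw [← lint_cauchy hd0 τ, ← lintegral_const_mul' _ _ ENNReal.ofReal_ne_top]
  refine le_trans ?_ (lintegral_mono' (Measure.restrict_le_self (s := {t : ℝ | R ≤ |t|})) le_rfl)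
  refine setLIntegral_mono' (meas_set R) fun t ht => ?_
  rw [enorm_sq_of, ← ENNReal.ofReal_mul (by positivity)]
  apply ENNReal.ofReal_le_ofReal
  have h1 : (x : ℂ) + t * I - τ * I = (x : ℂ) + ((t - τ : ℝ) : ℂ) * I := by
    push_cast
    ring
  have h2 : ‖(x : ℂ) + t * I - τ * I‖ ^ 2 = x ^ 2 + (t - τ) ^ 2 := by
    rw [h1, ← normSq_eq_norm_sq, normSq_apply, line_re, line_im]
    ring
  have ht' : R ≤ |t| := ht
  have h3 : d ≤ |t - τ| := by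
    have := abs_sub_abs_le_abs_sub t τ
    linarith
  have h4 : d ^ 2 ≤ (t - τ) ^ 2 := by
    rw [← sq_abs (t - τ)]
    exact pow_le_pow_left₀ hd0.le h3 2
  rw [norm_div, div_pow, h2]
  have h5 : 0 < d ^ 2 + (t - τ) ^ 2 := by positivity
  have h6 : 0 < x ^ 2 + (t - τ) ^ 2 := by positivity
  rw [div_le_iff₀ h6]
  have h7 : 2 * ‖c‖ ^ 2 * (1 / (d ^ 2 + (t - τ) ^ 2)) * (x ^ 2 + (t - τ) ^ 2) =
      ‖c‖ ^ 2 * (2 * (x ^ 2 + (t - τ) ^ 2) / (d ^ 2 + (t - τ) ^ 2)) := by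
    field_simp
  rw [h7]
  have h8 : 1 ≤ 2 * (x ^ 2 + (t - τ) ^ 2) / (d ^ 2 + (t - τ) ^ 2) := by
    rw [one_le_div h5]
    nlinarith [sq_nonneg x]
  nlinarith [sq_nonneg ‖c‖]

theorem cont_term (c : ℂ) {x : ℝ} (hx : 0 < x) (τ : ℝ) :
    Continuous fun t : ℝ => c / ((x : ℂ) + t * I - τ * I) := by
  refine continuous_const.div (by fun_prop) fun t h0 => ?_
  have h1 : ((x : ℂ) + t * I - τ * I).re = 0 := by rw [h0]; simp
  simp at h1
  linarith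

theorem far_sum (m : ℝ → ℂ) {R : ℝ} (Z : Finset ℝ) (hZ : ∀ τ ∈ Z, |τ| < R) :
    ∃ M : ℝ≥0∞, M ≠ ⊤ ∧ ∀ x : ℝ, 0 < x →
    ∫⁻ t in {t : ℝ | R ≤ |t|}, ‖∑ τ ∈ Z, m τ / ((x : ℂ) + t * I - τ * I)‖ₑ ^ 2 ≤ M := by
  induction Z using Finset.induction_on with
  | empty => exact ⟨0, ENNReal.zero_ne_top, fun x _ => by simp⟩
  | insert τ Z' hτ ih =>
    obtain ⟨M₁, h1, h2⟩ := ih fun τ' hτ' => hZ τ' (Finset.mem_insert_of_mem hτ')
    obtain ⟨M₂, h3, h4⟩ := far_term (m τ) (hZ τ (Finset.mem_insert_self _ _))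
    refine ⟨2 * M₂ + 2 * M₁, ENNReal.add_ne_top.2 ⟨ENNReal.mul_ne_top (by norm_num) h3,
      ENNReal.mul_ne_top (by norm_num) h1⟩, fun x hx => ?_⟩
    have h5 : ∀ t : ℝ, ‖∑ τ' ∈ insert τ Z', m τ' / ((x : ℂ) + t * I - τ' * I)‖ₑ ^ 2 ≤
        2 * ‖m τ / ((x : ℂ) + t * I - τ * I)‖ₑ ^ 2 +
          2 * ‖∑ τ ∈ Z', m τ / ((x : ℂ) + t * I - τ * I)‖ₑ ^ 2 := by
      intro t
      rw [Finset.sum_insert hτ]
      exact enorm_add_sq _ _
    have hm : Measurable fun t : ℝ => 2 * ‖m τ / ((x : ℂ) + t * I - τ * I)‖ₑ ^ 2 :=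
      (((cont_term (m τ) hx τ).measurable.enorm).pow_const 2).const_mul 2
    refine (lintegral_mono h5).trans ?_
    rw [lintegral_add_left hm, lintegral_const_mul' _ _ (by norm_num),
      lintegral_const_mul' _ _ (by norm_num)]
    gcongr
    · exact h4 x hx
    · exact h2 x hx

theorem four_lint {μ : Measure ℝ} {f₁ f₂ f₃ : ℝ → ℝ≥0∞} (h₁ : Measurable f₁) (h₂ : Measurable f₂)
    (h₃ : Measurable f₃) (f₄ : ℝ → ℝ≥0∞) : ∫⁻ t, 2 * (f₁ t + f₂ t + f₃ t) + 2 * f₄ t ∂μ =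
      2 * (∫⁻ t, f₁ t ∂μ + ∫⁻ t, f₂ t ∂μ + ∫⁻ t, f₃ t ∂μ) + 2 * ∫⁻ t, f₄ t ∂μ := by
  have h4 : Measurable fun t => 2 * (f₁ t + f₂ t + f₃ t) := ((h₁.add h₂).add h₃).const_mul 2
  have h5 : Measurable fun t => f₁ t + f₂ t := h₁.add h₂
  rw [lintegral_add_left h4, lintegral_const_mul' _ _ (by norm_num),
    lintegral_const_mul' _ _ (by norm_num), lintegral_add_left h5, lintegral_add_left h₁]

/-- **The integral over the lines.** -/
theorem Bp.line_int (Q : Bp h F p κ η C a B κ₀) : ∃ K : ℝ, 0 ≤ K ∧ ∀ (R : ℝ) (Z : Finset ℝ),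
    1 ≤ R → (∀ τ ∈ Z, τ ≠ 0) → (∀ τ ∈ Z, |τ| < R) →
    (∀ τ : ℝ, |τ| ≤ R → τ ≠ 0 → F (τ * I) = 0 → τ ∈ Z) →
    ∃ M : ℝ≥0∞, M ≠ ⊤ ∧ ∀ x : ℝ, 0 < x → x ≤ 1 →
      ∫⁻ t : ℝ, ‖Dz h F Z (x + t * I)‖ₑ ^ 2 ≤ M + ENNReal.ofReal (K / x) * tl (R - 1) := by
  obtain ⟨K, hK0, hK⟩ := glob_dL2 (L := Lo h p κ₀) Q.hη Q.ha Q.hB Q.hF Q.hgrow
    (fun s hs => Q.exp_Lo hs) Q.re_Lo
  refine ⟨12 * K, by positivity, fun R Z hR hZ0 hZR hZ => ?_⟩
  obtain ⟨M₁, hM₁0, hM₁⟩ := Q.near hZ0 hZ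
  obtain ⟨M₂, hM₂0, hM₂⟩ := far_sum (fun τ : ℝ => (mu F τ : ℂ) / (τ * I)) Z hZR
  set N : ℝ≥0∞ := ENNReal.ofReal (2 * Real.pi) * ∫⁻ u : ℝ, ‖h u‖ₑ ^ 2 with hN
  have hNt : N ≠ ⊤ := by
    refine ENNReal.mul_ne_top ENNReal.ofReal_ne_top ?_
    have h1 := Q.H.sq.eLpNorm_lt_top
    have h2 : eLpNorm h 2 volume ^ 2 = ∫⁻ u : ℝ, ‖h u‖ₑ ^ 2 := by
      rw [eLpNorm_eq_lintegral_rpow_enorm_toReal (by norm_num) (by norm_num)]
      simp only [ENNReal.toReal_ofNat, ENNReal.rpow_ofNat, one_div]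
      rw [← ENNReal.rpow_natCast, ← ENNReal.rpow_mul]
      norm_num
    rw [← h2]
    exact (ENNReal.pow_lt_top h1).ne
  -- the near part
  set A₁ : ℝ≥0∞ := ENNReal.ofReal (2 * M₁ ^ 2) with hA₁
  refine ⟨(A₁ * ENNReal.ofReal (2 * R) + A₁ * N) +
    (2 * (ENNReal.ofReal (6 * p ^ 2) * ENNReal.ofReal Real.pi + 3 * N) + 2 * M₂), ?_, ?_⟩
  · have e1 : A₁ ≠ ⊤ := ENNReal.ofReal_ne_top
    have e2 : A₁ * ENNReal.ofReal (2 * R) ≠ ⊤ := ENNReal.mul_ne_top e1 ENNReal.ofReal_ne_top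
    have e3 : A₁ * N ≠ ⊤ := ENNReal.mul_ne_top e1 hNt
    have e4 : ENNReal.ofReal (6 * p ^ 2) * ENNReal.ofReal Real.pi ≠ ⊤ :=
      ENNReal.mul_ne_top ENNReal.ofReal_ne_top ENNReal.ofReal_ne_top
    have e5 : 3 * N ≠ ⊤ := ENNReal.mul_ne_top (by norm_num) hNt
    have e6 : 2 * (ENNReal.ofReal (6 * p ^ 2) * ENNReal.ofReal Real.pi + 3 * N) ≠ ⊤ :=
      ENNReal.mul_ne_top (by norm_num) (ENNReal.add_ne_top.2 ⟨e4, e5⟩)
    have e7 : 2 * M₂ ≠ ⊤ := ENNReal.mul_ne_top (by norm_num) hM₂0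
    exact ENNReal.add_ne_top.2 ⟨ENNReal.add_ne_top.2 ⟨e2, e3⟩, ENNReal.add_ne_top.2 ⟨e6, e7⟩⟩
  intro x hx hx1
  have hline := Q.H.line hx
  have hLc : Continuous fun t : ℝ => La h (x + t * I) := by
    rw [continuous_iff_continuousAt]
    intro t
    have h1 : ContinuousAt (La h) ((x : ℂ) + t * I) :=
      (Q.H.diff (by rw [line_re]; exact hx)).continuousAt
    exact ContinuousAt.comp (f := fun t : ℝ => (x : ℂ) + t * I) h1 (by fun_prop)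
  have hLm : Measurable fun t : ℝ => ‖La h (x + t * I)‖ₑ ^ 2 := (hLc.measurable.enorm).pow_const 2
  have hnear : ∫⁻ t in {t : ℝ | |t| < R}, ‖Dz h F Z (x + t * I)‖ₑ ^ 2 ≤
      A₁ * ENNReal.ofReal (2 * R) + A₁ * N := by
    have hms : MeasurableSet {t : ℝ | |t| < R} :=
      measurableSet_lt continuous_abs.measurable measurable_const
    have h1 : ∀ t ∈ {t : ℝ | |t| < R}, ‖Dz h F Z (x + t * I)‖ₑ ^ 2 ≤
        A₁ + A₁ * ‖La h (x + t * I)‖ₑ ^ 2 := by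
      intro t ht
      have ht' : |t| < R := ht
      have h2 := hM₁ (x + t * I) (by rw [line_re]; exact hx) (by rw [line_re]; exact hx1)
        (by rw [line_im]; exact ht'.le)
      rw [enorm_sq_of, enorm_sq_of, hA₁, ← ENNReal.ofReal_mul (by positivity),
        ← ENNReal.ofReal_add (by positivity) (by positivity)]
      apply ENNReal.ofReal_le_ofReal
      have h3 : ‖Dz h F Z (x + t * I)‖ ^ 2 ≤ (M₁ * (1 + ‖La h (x + t * I)‖)) ^ 2 :=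
        pow_le_pow_left₀ (norm_nonneg _) h2 2
      have h4 : (1 + ‖La h (x + t * I)‖) ^ 2 ≤ 2 + 2 * ‖La h (x + t * I)‖ ^ 2 := by
        nlinarith [sq_nonneg (1 - ‖La h (x + t * I)‖)]
      rw [mul_pow] at h3
      have h5 := mul_le_mul_of_nonneg_left h4 (sq_nonneg M₁)
      nlinarith
    refine (setLIntegral_mono' hms h1).trans ?_
    rw [lintegral_add_left measurable_const, lintegral_const, lintegral_const_mul _ hLm]
    refine add_le_add (mul_le_mul_right ?_ _) (mul_le_mul_right ?_ _)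
    · rw [Measure.restrict_apply_univ]
      have h2 : {t : ℝ | |t| < R} ⊆ Icc (-R) R := fun t ht => by
        have ht' : |t| < R := ht
        exact ⟨(abs_lt.1 ht').1.le, (abs_lt.1 ht').2.le⟩
      refine (measure_mono h2).trans (le_of_eq ?_)
      rw [Real.volume_Icc]
      congr 1
      ring
    · exact (lintegral_mono' Measure.restrict_le_self le_rfl).trans hline
  -- the far part
  have hfar : ∫⁻ t in {t : ℝ | R ≤ |t|}, ‖Dz h F Z (x + t * I)‖ₑ ^ 2 ≤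
      2 * (ENNReal.ofReal (6 * p ^ 2) * ENNReal.ofReal Real.pi + 3 * N) + 2 * M₂ +
        ENNReal.ofReal (12 * K / x) * tl (R - 1) := by
    have h1 : ∀ t ∈ {t : ℝ | R ≤ |t|}, ‖Dz h F Z (x + t * I)‖ₑ ^ 2 ≤
        2 * (ENNReal.ofReal (6 * p ^ 2) * wq t + 6 *
          (‖deriv F (x + t * I) / F (x + t * I)‖ₑ ^ 2 * wq t) + 3 * ‖La h (x + t * I)‖ₑ ^ 2) +
        2 * ‖∑ τ ∈ Z, ((mu F τ : ℂ) / (τ * I)) / ((x : ℂ) + t * I - τ * I)‖ₑ ^ 2 := by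
      intro t ht
      have ht' : R ≤ |t| := ht
      unfold Dz
      refine (enorm_add_sq _ _).trans (add_le_add (mul_le_mul_right ?_ _) le_rfl)
      have hs : 0 < ((x : ℂ) + t * I).re := by rw [line_re]; exact hx
      rw [Q.deriv_eq hs]
      set s : ℂ := (x : ℂ) + t * I with hsd
      have hs0 := ne_zero_of_re hs
      have hsn : 0 < ‖s‖ := norm_pos_iff.2 hs0
      have ht1 : 1 ≤ |t| := hR.trans ht'
      have hts : |t| ≤ ‖s‖ := by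
        have := Complex.abs_im_le_norm s
        rwa [hsd, line_im] at this
      have hs1 : 1 ≤ ‖s‖ := ht1.trans hts
      have ht2 : 1 ≤ t ^ 2 := by
        rw [← sq_abs]
        exact one_le_pow₀ ht1
      have hst : t ^ 2 ≤ ‖s‖ ^ 2 := by
        rw [← sq_abs]
        exact pow_le_pow_left₀ (abs_nonneg _) hts 2
      set w : ℝ := 1 / (1 + t ^ 2) with hw
      have hw0 : 0 < w := by positivity
      have hsw : 1 / ‖s‖ ^ 2 ≤ 2 * w := by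
        rw [hw, mul_one_div, div_le_div_iff₀ (by positivity) (by positivity)]
        linarith
      have hs2 : 1 / ‖s‖ ^ 2 ≤ 1 := by
        rw [div_le_one (by positivity)]
        exact one_le_pow₀ hs1
      set G : ℂ := deriv F s / F s with hG
      have e1 : ‖(p / s - G - La h s) / s‖ ^ 2 ≤
          6 * p ^ 2 * w + 6 * (‖G‖ ^ 2 * w) + 3 * ‖La h s‖ ^ 2 := by
        rw [norm_div, div_pow]
        have e2 : ‖(p : ℂ) / s - G - La h s‖ ≤ p + ‖G‖ + ‖La h s‖ := by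
          have e3 := norm_sub_le ((p : ℂ) / s - G) (La h s)
          have e4 := norm_sub_le ((p : ℂ) / s) G
          have e5 : ‖(p : ℂ) / s‖ ≤ p := by
            rw [norm_div, Complex.norm_natCast]
            exact div_le_self (Nat.cast_nonneg _) hs1
          linarith
        have e6 : ‖(p : ℂ) / s - G - La h s‖ ^ 2 ≤ 3 * (p ^ 2 + ‖G‖ ^ 2 + ‖La h s‖ ^ 2) := by
          have e7 : ‖(p : ℂ) / s - G - La h s‖ ^ 2 ≤ (p + ‖G‖ + ‖La h s‖) ^ 2 :=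
            pow_le_pow_left₀ (norm_nonneg _) e2 2
          nlinarith [sq_nonneg ((p : ℝ) - ‖G‖), sq_nonneg (‖G‖ - ‖La h s‖),
            sq_nonneg ((p : ℝ) - ‖La h s‖)]
        have e8 : ‖(p : ℂ) / s - G - La h s‖ ^ 2 / ‖s‖ ^ 2 ≤
            3 * (p ^ 2 + ‖G‖ ^ 2 + ‖La h s‖ ^ 2) * (1 / ‖s‖ ^ 2) := by
          rw [mul_one_div]
          exact div_le_div_of_nonneg_right e6 (by positivity)
        have e9 : (p : ℝ) ^ 2 * (1 / ‖s‖ ^ 2) ≤ p ^ 2 * (2 * w) :=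
          mul_le_mul_of_nonneg_left hsw (by positivity)
        have e10 : ‖G‖ ^ 2 * (1 / ‖s‖ ^ 2) ≤ ‖G‖ ^ 2 * (2 * w) :=
          mul_le_mul_of_nonneg_left hsw (by positivity)
        have e11 : ‖La h s‖ ^ 2 * (1 / ‖s‖ ^ 2) ≤ ‖La h s‖ ^ 2 * 1 :=
          mul_le_mul_of_nonneg_left hs2 (by positivity)
        refine e8.trans ?_
        have e12 : 3 * ((p : ℝ) ^ 2 + ‖G‖ ^ 2 + ‖La h s‖ ^ 2) * (1 / ‖s‖ ^ 2) =
          3 * (p ^ 2 * (1 / ‖s‖ ^ 2) + ‖G‖ ^ 2 * (1 / ‖s‖ ^ 2) +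
            ‖La h s‖ ^ 2 * (1 / ‖s‖ ^ 2)) := by ring
        rw [e12]
        linarith
      have e13 : wq t = ENNReal.ofReal w := rfl
      rw [enorm_sq_of, enorm_sq_of, enorm_sq_of, e13, ← ENNReal.ofReal_mul (by positivity),
        ← ENNReal.ofReal_mul (by positivity), show (6 : ℝ≥0∞) = ENNReal.ofReal 6 by norm_num,
        show (3 : ℝ≥0∞) = ENNReal.ofReal 3 by norm_num, ← ENNReal.ofReal_mul (by norm_num),
        ← ENNReal.ofReal_mul (by norm_num), ← ENNReal.ofReal_add (by positivity) (by positivity),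
        ← ENNReal.ofReal_add (by positivity) (by positivity)]
      exact ENNReal.ofReal_le_ofReal e1
    have hGm : Measurable fun t : ℝ => ‖deriv F (x + t * I) / F (x + t * I)‖ₑ ^ 2 * wq t :=
      (((dline Q.hη Q.hF (fun s hs => Q.ne hs) hx).measurable.enorm).pow_const 2).mul wq_meas
    have hm1 : Measurable fun t : ℝ => ENNReal.ofReal (6 * p ^ 2) * wq t :=
      wq_meas.const_mul _
    have hm2 : Measurable fun t : ℝ =>
        6 * (‖deriv F (x + t * I) / F (x + t * I)‖ₑ ^ 2 * wq t) := hGm.const_mul _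
    have hm3 : Measurable fun t : ℝ => 3 * ‖La h (x + t * I)‖ₑ ^ 2 := hLm.const_mul _
    have hsum := four_lint (μ := volume.restrict {t : ℝ | R ≤ |t|}) hm1 hm2 hm3
      (fun t : ℝ => ‖∑ τ ∈ Z, ((mu F τ : ℂ) / (τ * I)) / ((x : ℂ) + t * I - τ * I)‖ₑ ^ 2)
    refine (setLIntegral_mono' (meas_set R) h1).trans ((le_of_eq hsum).trans ?_)
    rw [lintegral_const_mul' _ _ ENNReal.ofReal_ne_top, lintegral_const_mul' _ _ (by norm_num),
      lintegral_const_mul' _ _ (by norm_num)]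
    have k1 : ∫⁻ t in {t : ℝ | R ≤ |t|}, wq t ≤ ENNReal.ofReal Real.pi := by
      rw [← lint_wq]
      exact lintegral_mono' Measure.restrict_le_self le_rfl
    have k2 : ∫⁻ t in {t : ℝ | R ≤ |t|}, ‖deriv F (x + t * I) / F (x + t * I)‖ₑ ^ 2 * wq t ≤
        ENNReal.ofReal (K / x) * tl (R - 1) := by
      have := hK (R - 1) x hx hx1
      rwa [sub_add_cancel] at this
    have k3 : ∫⁻ t in {t : ℝ | R ≤ |t|}, ‖La h (x + t * I)‖ₑ ^ 2 ≤ N :=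
      (lintegral_mono' Measure.restrict_le_self le_rfl).trans hline
    have k4 := hM₂ x hx
    have k5 : ENNReal.ofReal (12 * K / x) = 2 * 6 * ENNReal.ofReal (K / x) := by
      rw [show (2 : ℝ≥0∞) * 6 = ENNReal.ofReal 12 by norm_num, ← ENNReal.ofReal_mul (by norm_num)]
      congr 1
      ring
    calc _ ≤ 2 * (ENNReal.ofReal (6 * p ^ 2) * ENNReal.ofReal Real.pi +
            6 * (ENNReal.ofReal (K / x) * tl (R - 1)) + 3 * N) + 2 * M₂ := by gcongr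
      _ = _ := by
        rw [k5]
        ring
  have hsplit : ∫⁻ t : ℝ, ‖Dz h F Z (x + t * I)‖ₑ ^ 2 ≤
      (∫⁻ t in {t : ℝ | |t| < R}, ‖Dz h F Z (x + t * I)‖ₑ ^ 2) +
      ∫⁻ t in {t : ℝ | R ≤ |t|}, ‖Dz h F Z (x + t * I)‖ₑ ^ 2 := by
    have h1 : (univ : Set ℝ) = {t : ℝ | |t| < R} ∪ {t : ℝ | R ≤ |t|} := by
      ext t
      simp only [mem_univ, mem_union, Set.mem_ofPred_eq, true_iff]
      exact lt_or_ge _ _
    rw [← setLIntegral_univ, h1]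
    exact lintegral_union_le _ _ _
  refine hsplit.trans ((add_le_add hnear hfar).trans (le_of_eq ?_))
  ring

end Pool.Agent.Q5.BP
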