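import Pool.Agent.Q5.BP.CnBp
import Pool.Agent.TH270.MS.PW

/-!
# The mean square law and the Hardy space, without a continuation
-/

set_option autoImplicit false

open MeasureTheory Filter Topology Set Complex
open scoped ENNReal
open Pool.Agent.TH942.LS (Dat)
open Pool.Agent.TH942.SL (DD dd_deriv)
open Pool.Agent.TH270.MS (Sh sh_le sh_meas sh_zero sh_lap ferr_meas)
open Pool.Agent.TH270.MS.LocL2 (const_of_exp)

namespace Pool.Agent.Q5.BP

/-- the Hardy space of the right half plane -/
structure H2 (H : ℂ → ℂ) : Prop where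
  diff : ∀ s : ℂ, 0 < s.re → DifferentiableAt ℂ H s
  bdd : ∀ δ : ℝ, 0 < δ → ∃ B : ℝ, ∀ s : ℂ, δ ≤ s.re → ‖H s‖ ≤ B
  sq : ∃ M : ℝ, ∀ x : ℝ, 0 < x → ∫⁻ t : ℝ, ‖H (x + t * I)‖ₑ ^ 2 ≤ ENNReal.ofReal M

variable {h : ℝ → ℂ}

theorem HL.bd (H : HL h) {δ : ℝ} (hδ : 0 < δ) : ∃ B : ℝ, ∀ s : ℂ, δ ≤ s.re → ‖La h s‖ ≤ B := by
  have hE := exp_memLp hδ
  have h1 : Integrable fun u : ℝ => ‖h u‖ ^ 2 :=
    (memLp_two_iff_integrable_sq_norm H.sq.aestronglyMeasurable).1 H.sq
  have h2 : Integrable fun u : ℝ =>
      ‖(Ioi (0 : ℝ)).indicator (fun u => Real.exp (-(δ * u))) u‖ ^ 2 :=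
    (memLp_two_iff_integrable_sq_norm hE.aestronglyMeasurable).1 hE
  refine ⟨∫ u : ℝ, (‖h u‖ ^ 2 +
    ‖(Ioi (0 : ℝ)).indicator (fun u => Real.exp (-(δ * u))) u‖ ^ 2) / 2, fun s hs => ?_⟩
  refine norm_integral_le_of_norm_le ((h1.add h2).div_const 2) (Eventually.of_forall fun u => ?_)
  rw [norm_mul, norm_exp_neg']
  by_cases hu : 0 < u
  · rw [indicator_of_mem (show u ∈ Ioi (0 : ℝ) from hu), Real.norm_of_nonneg (Real.exp_pos _).le]
    have h3 : Real.exp (-(s.re * u)) ≤ Real.exp (-(δ * u)) := by
      apply Real.exp_le_exp.2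
      nlinarith
    have h4 : ‖h u‖ * Real.exp (-(s.re * u)) ≤ ‖h u‖ * Real.exp (-(δ * u)) :=
      mul_le_mul_of_nonneg_left h3 (norm_nonneg _)
    nlinarith [sq_nonneg (‖h u‖ - Real.exp (-(δ * u)))]
  · rw [H.zero u (not_lt.1 hu), norm_zero, zero_mul]
    positivity

/-- Laplace transforms of square integrable functions belong to the Hardy space -/
theorem HL.h2 (H : HL h) : H2 (La h) where
  diff := fun _ hs => H.diff hs
  bdd := fun _ hδ => H.bd hδ
  sq := by
    have hfin : ENNReal.ofReal (2 * Real.pi) * ∫⁻ u : ℝ, ‖h u‖ₑ ^ 2 ≠ ⊤ := by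
      refine ENNReal.mul_ne_top ENNReal.ofReal_ne_top ?_
      have h1 := H.sq.eLpNorm_lt_top
      rw [TH270.MS.PW.enorm_sq] at h1
      exact (ENNReal.rpow_lt_top_iff_of_pos (by norm_num)).1 h1 |>.ne
    refine ⟨(ENNReal.ofReal (2 * Real.pi) * ∫⁻ u : ℝ, ‖h u‖ₑ ^ 2).toReal, fun x hx => ?_⟩
    rw [ENNReal.ofReal_toReal hfin]
    exact H.line hx

variable {lam c : ℕ → ℝ} {δ σ : ℝ}

theorem hh_zero (r q : ℝ) {u : ℝ} (hu : u ≤ 0) : hh lam c r q u = 0 := by
  unfold hh
  rw [indicator_of_notMem (by simpa using hu)]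

/-- the error term is square integrable with an exponential weight -/
theorem hh_exp_HL (D : Dat lam c δ σ) (r q : ℝ) {x : ℝ} (hx : σ < x) :
    HL (fun u : ℝ => hh lam c r q u * exp (-((x : ℂ) * u))) where
  zero := fun u hu => by rw [hh_zero r q hu, zero_mul]
  sq := by
    have hσ := D.σ0
    set S₀ : ℝ := ∑' n, |c n| * Real.exp (-(σ * lam n)) with hS₀
    have h0 : 0 ≤ S₀ := tsum_nonneg fun n => by positivity
    set C₁ : ℝ := S₀ + |r| / σ + |q| with hC₁
    have hC0 : 0 ≤ C₁ := by positivity
    have hm : Measurable fun u : ℝ => hh lam c r q u * exp (-((x : ℂ) * u)) :=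
      (hh_meas D r q).mul (by fun_prop)
    rw [memLp_two_iff_integrable_sq_norm hm.aestronglyMeasurable]
    have i1 : IntegrableOn (fun u : ℝ => (Sh lam c u - r * Real.log u - q) ^ 2) (Ioc 0 1) :=
      near_int D r q
    have i2 : IntegrableOn (fun u : ℝ => C₁ ^ 2 * Real.exp (-(2 * (x - σ)) * u)) (Ioi 1) :=
      (integrableOn_exp_mul_Ioi (a := -(2 * (x - σ))) (by linarith) 1).const_mul _
    have e1 : IntegrableOn (fun u : ℝ => ‖hh lam c r q u * exp (-((x : ℂ) * u))‖ ^ 2)
        (Ioc 0 1) := by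
      refine i1.mono' (hm.norm.pow_const 2).aestronglyMeasurable ?_
      filter_upwards [ae_restrict_mem measurableSet_Ioc] with u hu
      rw [Real.norm_of_nonneg (by positivity), norm_mul, norm_exp_neg', Complex.ofReal_re,
        hh_pos r q hu.1, Complex.norm_real, Real.norm_eq_abs, mul_pow, sq_abs]
      have h1 : Real.exp (-(x * u)) ^ 2 ≤ 1 := by
        apply pow_le_one₀ (Real.exp_pos _).le
        rw [Real.exp_le_one_iff]
        have := mul_pos (hσ.trans hx) hu.1
        linarith
      nlinarith [sq_nonneg (Sh lam c u - r * Real.log u - q)]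
    have e2 : IntegrableOn (fun u : ℝ => ‖hh lam c r q u * exp (-((x : ℂ) * u))‖ ^ 2)
        (Ioi 1) := by
      refine i2.mono' (hm.norm.pow_const 2).aestronglyMeasurable ?_
      filter_upwards [ae_restrict_mem measurableSet_Ioi] with u hu
      have hu1 : (1 : ℝ) < u := hu
      have hu0 : 0 < u := by linarith
      rw [Real.norm_of_nonneg (by positivity), norm_mul, norm_exp_neg', Complex.ofReal_re,
        hh_pos r q hu0, Complex.norm_real, Real.norm_eq_abs]
      have h1 : |Real.log u| ≤ Real.exp (σ * u) / σ := by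
        rw [abs_of_nonneg (Real.log_nonneg hu1.le), le_div_iff₀ hσ]
        have h2 := Real.log_le_sub_one_of_pos hu0
        have h3 := Real.add_one_le_exp (σ * u)
        nlinarith
      have h2 : (1 : ℝ) ≤ Real.exp (σ * u) := Real.one_le_exp (by positivity)
      have h3 : |Sh lam c u - r * Real.log u - q| ≤ C₁ * Real.exp (σ * u) := by
        refine (abs_sub _ _).trans ?_
        have h4 : |Sh lam c u - r * Real.log u| ≤
            Real.exp (σ * u) * S₀ + |r| * (Real.exp (σ * u) / σ) := by
          refine (abs_sub _ _).trans ?_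
          rw [abs_mul]
          exact add_le_add (sh_le D u) (mul_le_mul_of_nonneg_left h1 (abs_nonneg _))
        have h5 : |q| ≤ |q| * Real.exp (σ * u) := le_mul_of_one_le_right (abs_nonneg _) h2
        have h6 : C₁ * Real.exp (σ * u) = Real.exp (σ * u) * S₀ +
            |r| * (Real.exp (σ * u) / σ) + |q| * Real.exp (σ * u) := by
          rw [hC₁]
          ring
        linarith
      have h4 : |Sh lam c u - r * Real.log u - q| * Real.exp (-(x * u)) ≤
          C₁ * Real.exp (-((x - σ) * u)) := by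
        calc _ ≤ (C₁ * Real.exp (σ * u)) * Real.exp (-(x * u)) :=
              mul_le_mul_of_nonneg_right h3 (Real.exp_pos _).le
          _ = C₁ * (Real.exp (σ * u) * Real.exp (-(x * u))) := by ring
          _ = _ := by
            rw [← Real.exp_add]
            ring_nf
      refine (pow_le_pow_left₀ (by positivity) h4 2).trans (le_of_eq ?_)
      rw [mul_pow, ← Real.exp_nat_mul]
      congr 2
      push_cast
      ring
    have e3 := e1.union e2
    rw [Ioc_union_Ioi_eq_Ioi zero_le_one] at e3
    refine ((integrable_indicator_iff measurableSet_Ioi).2 e3).congr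
      (Eventually.of_forall fun u => ?_)
    by_cases hu : u ∈ Ioi (0 : ℝ)
    · simp only [indicator_of_mem hu]
    · simp only [indicator_of_notMem hu]
      rw [hh_zero r q (not_lt.1 hu)]
      simp

theorem la_shift (r q x : ℝ) (s : ℂ) : La (hh lam c r q) s =
    La (fun u : ℝ => hh lam c r q u * exp (-((x : ℂ) * u))) (s - x) := by
  unfold La
  refine integral_congr_ae (Eventually.of_forall fun u => ?_)
  simp only
  rw [mul_assoc, ← exp_add]
  congr 2
  ring

theorem hh_int (D : Dat lam c δ σ) (r q : ℝ) {s : ℂ} (hs : σ < s.re) :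
    Integrable fun u : ℝ => hh lam c r q u * exp (-(s * u)) := by
  obtain ⟨x, h1, h2⟩ := exists_between hs
  have h3 := (hh_exp_HL D r q h1).int (s := s - x) (by simpa using h2)
  refine h3.congr (Eventually.of_forall fun u => ?_)
  simp only
  rw [mul_assoc, ← exp_add]
  congr 2
  ring

theorem la_diff (D : Dat lam c δ σ) (r q : ℝ) {s : ℂ} (hs : σ < s.re) :
    DifferentiableAt ℂ (La (hh lam c r q)) s := by
  obtain ⟨x, h1, h2⟩ := exists_between hs
  have h3 := (hh_exp_HL D r q h1).diff (s := s - x) (by simpa using h2)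
  have h4 : La (hh lam c r q) = fun s : ℂ =>
      La (fun u : ℝ => hh lam c r q u * exp (-((x : ℂ) * u))) (s - x) := by
    funext s
    exact la_shift r q x s
  rw [h4]
  exact DifferentiableAt.comp s (f := fun s : ℂ => s - x) h3 (by fun_prop)

theorem dd_diff (D : Dat lam c δ σ) {s : ℂ} (hs : σ < s.re) : DifferentiableAt ℂ (DD lam c) s :=
  (dd_deriv D hs).differentiableAt

/-- the Laplace transform of the error term -/
theorem la_eq (D : Dat lam c δ σ) (r q : ℝ) {s : ℂ} (hs : σ < s.re) :
    s * La (hh lam c r q) s = DD lam c s + r * (Real.eulerMascheroniConstant + log s) - q := by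
  have hσ := D.σ0
  have hU : IsOpen {s : ℂ | σ < s.re} := open_re σ
  have hUc : IsPreconnected {s : ℂ | σ < s.re} := (conv_re σ).isPreconnected
  have a1 : AnalyticOnNhd ℂ (fun s => s * La (hh lam c r q) s) {s : ℂ | σ < s.re} :=
    DifferentiableOn.analyticOnNhd (fun s hs => (differentiableAt_id.mul
      (la_diff D r q hs)).differentiableWithinAt) hU
  have a2 : AnalyticOnNhd ℂ (fun s => DD lam c s + r * (Real.eulerMascheroniConstant + log s) - q)
      {s : ℂ | σ < s.re} := by
    refine DifferentiableOn.analyticOnNhd (fun s hs => ?_) hU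
    have hs' : σ < s.re := hs
    have h1 : DifferentiableAt ℂ (fun s => log s) s :=
      differentiableAt_id.clog (Or.inl (hσ.trans hs'))
    exact (((dd_diff D hs').add ((h1.const_add _).const_mul _)).sub_const _).differentiableWithinAt
  have hreal : ∀ x : ℝ, σ < x → (x : ℂ) * La (hh lam c r q) x =
      DD lam c x + r * (Real.eulerMascheroniConstant + log (x : ℂ)) - q := by
    intro x hx
    have hx0 : 0 < x := hσ.trans hx
    have hxC : (x : ℂ) ≠ 0 := by exact_mod_cast hx0.ne'
    rw [hh_lap D r q hx, mul_div_cancel₀ _ hxC, ← Complex.ofReal_log hx0.le]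
  have hfreq : ∃ᶠ z in 𝓝[≠] ((σ + 1 : ℝ) : ℂ), z * La (hh lam c r q) z =
      DD lam c z + r * (Real.eulerMascheroniConstant + log z) - q := by
    have t1 : Tendsto (fun x : ℝ => (x : ℂ)) (𝓝[≠] (σ + 1)) (𝓝[≠] ((σ + 1 : ℝ) : ℂ)) := by
      refine tendsto_nhdsWithin_of_tendsto_nhds_of_eventually_within _ ?_ ?_
      · exact (Complex.continuous_ofReal.tendsto _).mono_left nhdsWithin_le_nhds
      · filter_upwards [self_mem_nhdsWithin] with x hx
        intro h
        exact hx (Complex.ofReal_injective h)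
    refine t1.frequently (Eventually.frequently ?_)
    have h1 : ∀ᶠ x : ℝ in 𝓝[≠] (σ + 1), σ < x :=
      nhdsWithin_le_nhds (lt_mem_nhds (by linarith))
    filter_upwards [h1] with x hx
    exact hreal x hx
  exact a1.eqOn_of_preconnected_of_frequently_eq a2 hUc
    (show ((σ + 1 : ℝ) : ℂ) ∈ {s : ℂ | σ < s.re} by
      show σ < ((σ + 1 : ℝ) : ℂ).re
      rw [Complex.ofReal_re]
      linarith) hfreq hs

/-- **The mean square law and the Hardy space.** -/
theorem hardy (D : Dat lam c δ σ) (r q : ℝ) :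
    IntegrableOn (fun u : ℝ => (Sh lam c u - r * Real.log u - q) ^ 2) (Ioi 1) ↔
      ∃ H : ℂ → ℂ, H2 H ∧ ∀ s : ℂ, σ < s.re → exp (-DD lam c s) =
        exp (r * (Real.eulerMascheroniConstant + log s) - q + s * H s) := by
  have hσ := D.σ0
  constructor
  · intro h
    have HH := hh_HL D h
    have HN : HL (fun u => -hh lam c r q u) :=
      ⟨fun u hu => by rw [HH.zero u hu, neg_zero], HH.sq.neg⟩
    have hneg : ∀ s, La (fun u => -hh lam c r q u) s = -La (hh lam c r q) s := by
      intro s
      unfold La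
      rw [← integral_neg]
      refine integral_congr_ae (Eventually.of_forall fun u => ?_)
      simp only
      ring
    refine ⟨La (fun u => -hh lam c r q u), HN.h2, fun s hs => ?_⟩
    rw [hneg s, mul_neg, la_eq D r q hs]
    congr 1
    ring
  · rintro ⟨H, hH, he⟩
    -- the constant
    set U : Set ℂ := {s : ℂ | σ < s.re} with hU
    set Df : ℂ → ℂ := fun s => -DD lam c s - (r * (Real.eulerMascheroniConstant + log s) - q +
      s * H s) with hDf
    have hd : ∀ z ∈ U, DifferentiableAt ℂ Df z := by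
      intro z hz
      have hz' : σ < z.re := hz
      have h1 : DifferentiableAt ℂ (fun s => log s) z :=
        differentiableAt_id.clog (Or.inl (hσ.trans hz'))
      exact (dd_diff D hz').neg.sub ((((h1.const_add _).const_mul _).sub_const _).add
        (differentiableAt_id.mul (hH.diff z (hσ.trans hz'))))
    have hc : ∀ z ∈ U, exp (Df z) = 1 := by
      intro z hz
      rw [hDf]
      simp only
      rw [exp_sub, he z hz, div_self (exp_ne_zero _)]
    set s₀ : ℂ := ((σ + 1 : ℝ) : ℂ) with hs₀
    have hs₀U : s₀ ∈ U := by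
      show σ < ((σ + 1 : ℝ) : ℂ).re
      rw [Complex.ofReal_re]
      linarith
    set C₀ : ℂ := Df s₀ with hC₀
    have hC : ∀ z ∈ U, Df z = C₀ := fun z hz =>
      const_of_exp (open_re σ) (conv_re σ).isPreconnected hd hc hz hs₀U
    have hCre : C₀.re = 0 := by
      have h1 := hc s₀ hs₀U
      have h2 : Real.exp C₀.re = 1 := by
        rw [← Complex.norm_exp, hC₀, h1, norm_one]
      exact Real.exp_eq_one_iff _ |>.1 h2
    -- the function
    set k : ℝ → ℂ := fun u => -hh lam c r q u - C₀ * (Ioi (0 : ℝ)).indicator (fun _ => 1) u with hk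
    have istep : ∀ {s : ℂ}, 0 < s.re → Integrable fun u : ℝ =>
        (Ioi (0 : ℝ)).indicator (fun _ => (1 : ℂ)) u * exp (-(s * u)) := by
      intro s hs
      have h1 := integrableOn_exp_mul_complex_Ioi (a := -s) (by simpa using hs) 0
      refine ((integrable_indicator_iff measurableSet_Ioi).2 h1).congr
        (Eventually.of_forall fun u => ?_)
      by_cases hu : u ∈ Ioi (0 : ℝ)
      · simp only [indicator_of_mem hu, one_mul, neg_mul]
      · simp only [indicator_of_notMem hu, zero_mul]
    have vstep : ∀ {s : ℂ}, 0 < s.re → ∫ u : ℝ,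
        (Ioi (0 : ℝ)).indicator (fun _ => (1 : ℂ)) u * exp (-(s * u)) = 1 / s := by
      intro s hs
      have h1 := integral_exp_mul_complex_Ioi (a := -s) (by simpa using hs) 0
      rw [← integral_indicator measurableSet_Ioi] at h1
      have h2 : ∫ u : ℝ, (Ioi (0 : ℝ)).indicator (fun _ => (1 : ℂ)) u * exp (-(s * u)) =
          ∫ u : ℝ, (Ioi (0 : ℝ)).indicator (fun u : ℝ => exp (-s * u)) u := by
        refine integral_congr_ae (Eventually.of_forall fun u => ?_)
        by_cases hu : u ∈ Ioi (0 : ℝ)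
        · simp only [indicator_of_mem hu, one_mul, neg_mul]
        · simp only [indicator_of_notMem hu, zero_mul]
      rw [h2, h1]
      simp
    have hsplit : ∀ (s : ℂ) (u : ℝ), k u * exp (-(s * u)) = -(hh lam c r q u * exp (-(s * u))) -
        C₀ * ((Ioi (0 : ℝ)).indicator (fun _ => (1 : ℂ)) u * exp (-(s * u))) := by
      intro s u
      rw [hk]
      ring
    have kint : ∀ {s : ℂ}, σ < s.re → Integrable fun u : ℝ => k u * exp (-(s * u)) := by
      intro s hs
      simp_rw [hsplit]
      exact (hh_int D r q hs).neg.sub ((istep (hσ.trans hs)).const_mul _)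
    have hkm : Measurable k := (hh_meas D r q).neg.sub
      ((measurable_const.indicator measurableSet_Ioi).const_mul _)
    have hk2 : ∀ x : ℝ, σ < x → MemLp (fun u : ℝ => k u * exp (-((x : ℂ) * u))) 2 := by
      intro x hx
      have h1 := (hh_exp_HL D r q hx).sq
      have h2 : MemLp (fun u : ℝ => C₀ * ((Ioi (0 : ℝ)).indicator (fun _ => (1 : ℂ)) u *
          exp (-((x : ℂ) * u)))) 2 := by
        refine MemLp.const_mul ?_ C₀
        have h3 := exp_memLp (hσ.trans hx)
        refine MemLp.mono h3 (((measurable_const.indicator measurableSet_Ioi).mul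
          (by fun_prop)).aestronglyMeasurable) (Eventually.of_forall fun u => ?_)
        by_cases hu : u ∈ Ioi (0 : ℝ)
        · simp only [indicator_of_mem hu, one_mul]
          rw [norm_exp_neg', Complex.ofReal_re, Real.norm_of_nonneg (Real.exp_pos _).le]
        · simp only [indicator_of_notMem hu, zero_mul, norm_zero, le_refl]
      refine (h1.neg.sub h2).congr_norm ((hkm.mul (by fun_prop)).aestronglyMeasurable)
        (Eventually.of_forall fun u => ?_)
      simp only [Pi.sub_apply, Pi.neg_apply]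
      rw [hsplit]
    have hHk : ∀ s : ℂ, σ < s.re → H s = ∫ u : ℝ, k u * exp (-(s * u)) := by
      intro s hs
      have hs0 : s ≠ 0 := ne_zero_of_re (hσ.trans hs)
      simp_rw [hsplit]
      have i1 : Integrable fun u : ℝ => -(hh lam c r q u * exp (-(s * u))) := (hh_int D r q hs).neg
      rw [integral_sub i1 ((istep (hσ.trans hs)).const_mul _), integral_neg,
        integral_const_mul, vstep (hσ.trans hs)]
      have h1 : ∫ u : ℝ, hh lam c r q u * exp (-(s * u)) = La (hh lam c r q) s := rfl
      rw [h1]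
      have h2 := la_eq D r q hs
      have h3 := hC s hs
      rw [hDf] at h3
      simp only at h3
      have h4 : s * H s = s * (-La (hh lam c r q) s - C₀ * (1 / s)) := by
        have h5 : s * (-La (hh lam c r q) s - C₀ * (1 / s)) = -(s * La (hh lam c r q) s) - C₀ := by
          field_simp
        rw [h5, h2, ← h3]
        ring
      exact mul_left_cancel₀ hs0 h4
    obtain ⟨M, hM⟩ := hH.sq
    have hPW := Pool.Agent.TH270.MS.paley_wiener (k := k) (H := H) (a := σ) (δ₀ := 1)
      (K := ENNReal.ofReal M) hσ.le one_pos (fun x hx => kint (by simpa using hx)) hk2 hHk hH.diff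
      (fun δ hδ => by
        obtain ⟨B, hB⟩ := hH.bdd δ hδ
        exact ⟨B, fun s hs _ => hB s hs⟩) (fun δ hδ _ => hM δ hδ)
    have hfin : ∫⁻ u : ℝ, ‖k u‖ₑ ^ 2 < ⊤ := hPW.trans_lt ENNReal.ofReal_lt_top
    refine ⟨((ferr_meas D r q).pow_const 2).aestronglyMeasurable, ?_⟩
    refine lt_of_le_of_lt ?_ hfin
    refine le_trans ?_ (lintegral_mono' (Measure.restrict_le_self (s := Ioi (1 : ℝ))) le_rfl)
    refine setLIntegral_mono' measurableSet_Ioi fun u hu => ?_
    have hu1 : (1 : ℝ) < u := hu
    have hu0 : 0 < u := by linarith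
    rw [← ofReal_norm, ← ofReal_norm, ← ENNReal.ofReal_pow (norm_nonneg _)]
    apply ENNReal.ofReal_le_ofReal
    have h1 : (k u).re = -(Sh lam c u - r * Real.log u - q) := by
      rw [hk]
      simp only
      rw [indicator_of_mem (show u ∈ Ioi (0 : ℝ) from hu0), hh_pos r q hu0, mul_one,
        Complex.sub_re, Complex.neg_re, Complex.ofReal_re, hCre, sub_zero]
    rw [Real.norm_of_nonneg (sq_nonneg _), ← sq_abs, ← abs_neg, ← h1]
    exact pow_le_pow_left₀ (abs_nonneg _) (Complex.abs_re_le_norm _) 2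

end Pool.Agent.Q5.BP
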