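import Pool.Agent.Q5.BP.Coeff
import Pool.Agent.Q5.BP.CnBp
import Pool.Agent.Q5.MS.Lead

/-!
# The exact mean square of the error term
-/

set_option autoImplicit false

open MeasureTheory Filter Topology Set Complex
open scoped ENNReal
open Pool.Agent.TH942.LS (Dat)
open Pool.Agent.TH270.MS (Sh sh_le sh_meas sh_zero sh_lap Cn ferr_meas ferr_loc Mc DvR dvR_sh)

namespace Pool.Agent.Q5.BP

variable {lam c : ℕ → ℝ} {δ σ : ℝ} {G₀ g : ℂ → ℂ} {k p κ : ℕ} {η C : ℝ}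

/-! ### the half line -/

theorem hh_mul_sq (r q : ℝ) {u : ℝ} (hu : 0 < u) :
    ‖(u : ℂ) * hh lam c r q u‖ ^ 2 = (u * (Sh lam c u - r * Real.log u - q)) ^ 2 := by
  rw [hh_pos r q hu, ← Complex.ofReal_mul, Complex.norm_real, Real.norm_eq_abs, sq_abs]

/-- removing a bounded interval does not change the mean -/
theorem mean_from_one {f : ℝ → ℂ} {v : ℂ} (hf : ∀ T : ℝ, 0 < T → IntervalIntegrable f volume 0 T) :
    Tendsto (fun T : ℝ => (∫ u in (0 : ℝ)..T, f u) / (T : ℂ)) atTop (𝓝 v) ↔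
      Tendsto (fun T : ℝ => (∫ u in (1 : ℝ)..T, f u) / (T : ℂ)) atTop (𝓝 v) := by
  have h0 : Tendsto (fun T : ℝ => (∫ u in (0 : ℝ)..1, f u) / (T : ℂ)) atTop (𝓝 0) := by
    have h1 : Tendsto (fun T : ℝ => ‖∫ u in (0 : ℝ)..1, f u‖ / T) atTop (𝓝 0) :=
      tendsto_const_nhds.div_atTop tendsto_id
    refine squeeze_zero_norm' ?_ h1
    filter_upwards [eventually_gt_atTop 0] with T hT
    rw [norm_div, Complex.norm_real, Real.norm_of_nonneg hT.le]
  have h2 : (fun T : ℝ => (∫ u in (0 : ℝ)..T, f u) / (T : ℂ)) =ᶠ[atTop]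
      fun T : ℝ => (∫ u in (0 : ℝ)..1, f u) / (T : ℂ) + (∫ u in (1 : ℝ)..T, f u) / (T : ℂ) := by
    filter_upwards [eventually_gt_atTop 1] with T hT
    rw [← add_div, intervalIntegral.integral_add_adjacent_intervals (hf 1 one_pos)
      ((hf 1 one_pos).symm.trans (hf T (by linarith)))]
  rw [tendsto_congr' h2]
  constructor
  · intro h
    have h3 := h.sub h0
    rw [sub_zero] at h3
    refine h3.congr fun T => ?_
    ring
  · intro h
    have h3 := h0.add h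
    rwa [zero_add] at h3

theorem mean_from_one_real {f : ℝ → ℝ} {v : ℝ}
    (hf : ∀ T : ℝ, 0 < T → IntervalIntegrable f volume 0 T) :
    Tendsto (fun T : ℝ => (∫ u in (0 : ℝ)..T, f u) / T) atTop (𝓝 v) ↔
      Tendsto (fun T : ℝ => (∫ u in (1 : ℝ)..T, f u) / T) atTop (𝓝 v) := by
  have h0 : Tendsto (fun T : ℝ => (∫ u in (0 : ℝ)..1, f u) / T) atTop (𝓝 0) :=
    tendsto_const_nhds.div_atTop tendsto_id
  have h2 : (fun T : ℝ => (∫ u in (0 : ℝ)..T, f u) / T) =ᶠ[atTop]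
      fun T : ℝ => (∫ u in (0 : ℝ)..1, f u) / T + (∫ u in (1 : ℝ)..T, f u) / T := by
    filter_upwards [eventually_gt_atTop 1] with T hT
    rw [← add_div, intervalIntegral.integral_add_adjacent_intervals (hf 1 one_pos)
      ((hf 1 one_pos).symm.trans (hf T (by linarith)))]
  rw [tendsto_congr' h2]
  constructor
  · intro h
    have h3 := h.sub h0
    rw [sub_zero] at h3
    refine h3.congr fun T => ?_
    ring
  · intro h
    have h3 := h0.add h
    rwa [zero_add] at h3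

/-- **The mean square** -/
theorem cn_ms (E : Cn lam c δ σ G₀ g k p κ η C) (hne : ∀ s : ℂ, 0 < s.re → G₀ s ≠ 0) {r q : ℝ}
    (hr : (p : ℝ) = k + r) (hq : g 0 = Real.exp (r * Real.eulerMascheroniConstant - q)) :
    ∃ V : ℝ, HasSum (fun t : ℝ => ((mu G₀ t : ℝ) / t) ^ 2) V ∧
      Tendsto (fun T : ℝ => (∫ u in (1 : ℝ)..T, (u * (Sh lam c u - r * Real.log u - q)) ^ 2) / T)
        atTop (𝓝 V) := by
  obtain ⟨a, B, Q⟩ := cn_bp E hne hr hq
  obtain ⟨V, hV, h1⟩ := Q.mean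
  refine ⟨V, hV, ?_⟩
  rw [mean_from_one_real] at h1
  · refine h1.congr' ?_
    filter_upwards [eventually_ge_atTop 1] with T hT
    congr 1
    refine intervalIntegral.integral_congr fun u hu => ?_
    rw [uIcc_of_le hT] at hu
    exact hh_mul_sq r q (by linarith [hu.1])
  · intro T hT
    rw [intervalIntegrable_iff_integrableOn_Ioc_of_le hT.le]
    exact (memLp_two_iff_integrable_sq_norm (Q.H.loc T).aestronglyMeasurable).1 (Q.H.loc T)

/-- **The Fourier-Bohr coefficients** -/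
theorem cn_coeff (E : Cn lam c δ σ G₀ g k p κ η C) (hne : ∀ s : ℂ, 0 < s.re → G₀ s ≠ 0) {r q : ℝ}
    (hr : (p : ℝ) = k + r) (hq : g 0 = Real.exp (r * Real.eulerMascheroniConstant - q)) (t : ℝ) :
    Tendsto (fun T : ℝ => (∫ u in (1 : ℝ)..T,
      ((u * (Sh lam c u - r * Real.log u - q) : ℝ) : ℂ) * exp (-(t * I * u))) / (T : ℂ))
        atTop (𝓝 ((mu G₀ t : ℂ) / (t * I))) := by
  obtain ⟨a, B, Q⟩ := cn_bp E hne hr hq
  have h1 := Q.coeff t
  rw [mean_from_one] at h1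
  · refine h1.congr' ?_
    filter_upwards [eventually_ge_atTop 1] with T hT
    congr 1
    refine intervalIntegral.integral_congr fun u hu => ?_
    rw [uIcc_of_le hT] at hu
    rw [hh_pos r q (by linarith [hu.1]), ← Complex.ofReal_mul]
  · intro T hT
    exact loc_int hT (mul_exp_loc t (Q.H.loc T))

theorem wsq_loc (D : Dat lam c δ σ) (r q : ℝ) {T : ℝ} (hT : 1 ≤ T) :
    IntervalIntegrable (fun u : ℝ => (u * (Sh lam c u - r * Real.log u - q)) ^ 2) volume 1 T := by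
  rw [intervalIntegrable_iff_integrableOn_Ioc_of_le hT]
  set S₀ : ℝ := ∑' n, |c n| * Real.exp (-(σ * lam n)) with hS₀
  have h0 : 0 ≤ S₀ := tsum_nonneg fun n => by positivity
  have h1 : IntegrableOn (fun _ : ℝ => (T * (Real.exp (σ * T) * S₀ + |r| * T + |q|)) ^ 2)
      (Ioc 1 T) := integrableOn_const (by simp)
  refine h1.mono' (((measurable_id.mul (ferr_meas D r q)).pow_const 2).aestronglyMeasurable) ?_
  filter_upwards [ae_restrict_mem measurableSet_Ioc] with u hu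
  have hu0 : 0 < u := by linarith [hu.1]
  have e1 := sh_le D u
  have e2 : |Real.log u| ≤ T := by
    rw [abs_of_nonneg (Real.log_nonneg hu.1.le)]
    have := Real.log_le_sub_one_of_pos hu0
    linarith [hu.2]
  have e3 : Real.exp (σ * u) ≤ Real.exp (σ * T) :=
    Real.exp_le_exp.2 (mul_le_mul_of_nonneg_left hu.2 D.σ0.le)
  have e4 : |Sh lam c u - r * Real.log u - q| ≤ Real.exp (σ * T) * S₀ + |r| * T + |q| := by
    refine (abs_sub _ _).trans ?_
    gcongr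
    refine (abs_sub _ _).trans ?_
    rw [abs_mul]
    gcongr
    exact e1.trans (mul_le_mul_of_nonneg_right e3 h0)
  rw [Real.norm_of_nonneg (sq_nonneg _), ← sq_abs (u * _)]
  apply pow_le_pow_left₀ (abs_nonneg _)
  rw [abs_mul, abs_of_pos hu0]
  exact mul_le_mul hu.2 e4 (abs_nonneg _) (by linarith)

/-- a bounded weighted mean square gives small means -/
theorem small_of_wsq (D : Dat lam c δ σ) {r q B : ℝ}
    (h : ∀ᶠ T : ℝ in atTop, ∫ u in (1 : ℝ)..T, (u * (Sh lam c u - r * Real.log u - q)) ^ 2 ≤ B * T) :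
    Tendsto (fun T : ℝ => (∫ u in (1 : ℝ)..T, |Sh lam c u - r * Real.log u - q|) / T) atTop
      (𝓝 0) := by
  set f : ℝ → ℝ := fun u => Sh lam c u - r * Real.log u - q with hf
  rw [Metric.tendsto_nhds]
  intro ε hε
  set B' : ℝ := |B| + 1 with hB'
  have hB0 : 0 < B' := by positivity
  set θ : ℝ := ε / B' with hθ
  have hθ0 : 0 < θ := by positivity
  have h1 : Tendsto (fun T : ℝ => (1 / (2 * θ)) / T) atTop (𝓝 0) :=
    tendsto_const_nhds.div_atTop tendsto_id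
  filter_upwards [h, h1.eventually (gt_mem_nhds (half_pos hε)), eventually_ge_atTop 1] with T h2 h3 h4
  have hT0 : 0 < T := by linarith
  have i2 : IntervalIntegrable (fun u => |f u|) volume 1 T := by
    rw [intervalIntegrable_iff_integrableOn_Ioc_of_le h4]
    exact (ferr_loc D r q le_rfl).abs
  have i3 := wsq_loc D r q h4
  have i5 : IntervalIntegrable (fun u : ℝ => u ^ (-2 : ℤ)) volume 1 T :=
    intervalIntegral.intervalIntegrable_zpow (Or.inr (by
      rw [uIcc_of_le h4]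
      intro h
      linarith [h.1]))
  have e1 : ∫ u in (1 : ℝ)..T, |f u| ≤ ∫ u in (1 : ℝ)..T, (θ / 2 * (u * f u) ^ 2 +
      1 / (2 * θ) * u ^ (-2 : ℤ)) := by
    refine intervalIntegral.integral_mono_on h4 i2
      ((i3.const_mul _).add (i5.const_mul _)) fun u hu => ?_
    have hu0 : 0 < u := by linarith [hu.1]
    have h5 : u ^ (-2 : ℤ) = (1 / u) ^ 2 := by
      rw [zpow_neg, one_div, inv_pow]
      norm_cast
    rw [h5]
    have h6 : 0 ≤ (θ * |u * f u| - 1 / u) ^ 2 := sq_nonneg _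
    have h7 : |u * f u| = u * |f u| := by rw [abs_mul, abs_of_pos hu0]
    have h8 : |f u| * (2 * θ) ≤ (θ / 2 * (u * f u) ^ 2 + 1 / (2 * θ) * (1 / u) ^ 2) * (2 * θ) := by
      have e : (θ / 2 * (u * f u) ^ 2 + 1 / (2 * θ) * (1 / u) ^ 2) * (2 * θ) =
          (θ * |u * f u|) ^ 2 + (1 / u) ^ 2 := by
        rw [mul_pow θ, sq_abs]
        field_simp
      rw [e]
      have e' : θ * |u * f u| * (1 / u) = θ * |f u| := by
        rw [h7]
        field_simp
      nlinarith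
    exact le_of_mul_le_mul_right h8 (by linarith)
  have e2 : ∫ u in (1 : ℝ)..T, u ^ (-2 : ℤ) ≤ 1 := by
    rw [integral_zpow (Or.inr ⟨by norm_num, by
      rw [uIcc_of_le h4]
      intro h
      linarith [h.1]⟩)]
    have h5 : T ^ ((-2 : ℤ) + 1) = 1 / T := by
      norm_num
    rw [h5]
    have : 0 < 1 / T := by positivity
    norm_num
    linarith [inv_pos.2 hT0]
  have e3 : ∫ u in (1 : ℝ)..T, (θ / 2 * (u * f u) ^ 2 + 1 / (2 * θ) * u ^ (-2 : ℤ)) ≤
      ε / 2 * T + 1 / (2 * θ) := by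
    rw [intervalIntegral.integral_add (i3.const_mul _) (i5.const_mul _),
      intervalIntegral.integral_const_mul, intervalIntegral.integral_const_mul]
    have h5 : B * T ≤ B' * T := mul_le_mul_of_nonneg_right
      ((le_abs_self B).trans (by linarith)) hT0.le
    have h6 : θ / 2 * ∫ u in (1 : ℝ)..T, (u * f u) ^ 2 ≤ θ / 2 * (B' * T) :=
      mul_le_mul_of_nonneg_left (h2.trans h5) (by positivity)
    have h7 : θ / 2 * (B' * T) = ε / 2 * T := by
      rw [hθ]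
      field_simp
    have h8 : 1 / (2 * θ) * ∫ u in (1 : ℝ)..T, u ^ (-2 : ℤ) ≤ 1 / (2 * θ) * 1 :=
      mul_le_mul_of_nonneg_left e2 (by positivity)
    linarith
  have e0 : 0 ≤ ∫ u in (1 : ℝ)..T, |f u| :=
    intervalIntegral.integral_nonneg h4 fun u _ => abs_nonneg _
  rw [Real.dist_eq, sub_zero, abs_of_nonneg (div_nonneg e0 hT0.le), div_lt_iff₀ hT0]
  rw [div_lt_iff₀ hT0] at h3
  linarith

/-- a convergent mean is bounded -/
theorem bdd_of_tendsto {f : ℝ → ℝ} {V : ℝ} (h : Tendsto (fun T : ℝ => f T / T) atTop (𝓝 V)) :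
    ∀ᶠ T : ℝ in atTop, f T ≤ (V + 1) * T := by
  filter_upwards [h.eventually (gt_mem_nhds (show V < V + 1 by linarith)),
    eventually_gt_atTop 0] with T h1 h2
  rw [div_lt_iff₀ h2] at h1
  exact h1.le

/-- **The exact mean square as a criterion.** -/
theorem cn_tfae (E : Cn lam c δ σ G₀ g k p κ η C) (r q : ℝ) : List.TFAE [
    (∀ s : ℂ, 0 < s.re → G₀ s ≠ 0) ∧ (p : ℝ) = k + r ∧
      g 0 = Real.exp (r * Real.eulerMascheroniConstant - q),
    ∃ B : ℝ, ∀ᶠ T : ℝ in atTop,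
      ∫ u in (1 : ℝ)..T, (u * (Sh lam c u - r * Real.log u - q)) ^ 2 ≤ B * T,
    ∃ V : ℝ, HasSum (fun t : ℝ => ((mu G₀ t : ℝ) / t) ^ 2) V ∧
      Tendsto (fun T : ℝ => (∫ u in (1 : ℝ)..T, (u * (Sh lam c u - r * Real.log u - q)) ^ 2) / T)
        atTop (𝓝 V)] := by
  tfae_have 1 → 3 := by
    rintro ⟨h1, h2, h3⟩
    exact cn_ms E h1 h2 h3
  tfae_have 3 → 2 := by
    rintro ⟨V, -, h⟩
    exact ⟨V + 1, bdd_of_tendsto h⟩
  tfae_have 2 → 1 := by
    rintro ⟨B, h⟩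
    have h1 := (E.tfae r q).out 2 0
    exact h1.1 (small_of_wsq E.D h)
  tfae_finish

/-! ### Euler products -/

open Pool.Agent.TH270.MS (cov_ii eventually_exp_iff tendsto_exp_iff dvR_sq)
open Pool.Agent.TH942.ES (lamS Sys)
open Pool.Agent.TH270.RS (cS')

variable {X : Type} {d : ℕ} {N : X → ℕ} {α : X → Fin d → ℂ} {Ψ : ℂ → ℂ} {e : X × ℕ → ℕ}

theorem cov_iiC (φ : ℝ → ℂ) {T : ℝ} (hT : 1 ≤ T) :
    ∫ X in Real.exp 1..Real.exp T, φ (Real.log X) / (X : ℂ) = ∫ t in (1 : ℝ)..T, φ t := by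
  have hle : Real.exp 1 ≤ Real.exp T := Real.exp_le_exp.2 hT
  have himg : Real.exp '' Ioc 1 T = Ioc (Real.exp 1) (Real.exp T) := by
    ext x
    constructor
    · rintro ⟨t, ht, rfl⟩
      exact ⟨Real.exp_lt_exp.2 ht.1, Real.exp_le_exp.2 ht.2⟩
    · intro hx
      have h0 : 0 < x := (Real.exp_pos 1).trans hx.1
      refine ⟨Real.log x, ⟨?_, ?_⟩, Real.exp_log h0⟩
      · rw [← Real.log_exp 1]
        exact Real.log_lt_log (Real.exp_pos 1) hx.1
      · rw [← Real.log_exp T]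
        exact Real.log_le_log h0 hx.2
  rw [intervalIntegral.integral_of_le hle, intervalIntegral.integral_of_le hT, ← himg,
    integral_image_eq_integral_abs_deriv_smul measurableSet_Ioc
    (fun x _ => (Real.hasDerivAt_exp x).hasDerivWithinAt) Real.exp_injective.injOn]
  refine setIntegral_congr_fun measurableSet_Ioc fun t _ => ?_
  have h0 := Real.exp_pos t
  have h1 : (Real.exp t : ℂ) ≠ 0 := by exact_mod_cast h0.ne'
  simp only [Real.log_exp, abs_of_pos h0, Complex.real_smul]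
  field_simp

theorem dvR_wsq (E : Sys N α) (he : Function.Injective e) (ρ A : ℝ) {T : ℝ} (hT : 1 ≤ T) :
    ∫ Y in Real.exp 1..Real.exp T, (Real.log Y * DvR N α ρ A Y) ^ 2 / Y =
      ∫ t in (1 : ℝ)..T, (t * (Sh (lamS N e) (cS' N α e) t - ρ * Real.log t -
        (ρ * Real.eulerMascheroniConstant - Real.log A))) ^ 2 := by
  rw [← cov_ii _ hT]
  refine intervalIntegral.integral_congr fun Y hY => ?_
  rw [uIcc_of_le (Real.exp_le_exp.2 hT)] at hY
  have h0 : 0 < Y := (Real.exp_pos 1).trans_le hY.1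
  rw [dvR_sh E he ρ A h0, mul_neg, neg_sq]

theorem dvR_coeff (E : Sys N α) (he : Function.Injective e) (ρ A t : ℝ) {T : ℝ} (hT : 1 ≤ T) :
    ∫ Y in Real.exp 1..Real.exp T, ((Real.log Y * DvR N α ρ A Y : ℝ) : ℂ) *
      (Y : ℂ) ^ (-(t * I)) / (Y : ℂ) =
      -∫ u in (1 : ℝ)..T, ((u * (Sh (lamS N e) (cS' N α e) u - ρ * Real.log u -
        (ρ * Real.eulerMascheroniConstant - Real.log A)) : ℝ) : ℂ) * exp (-(t * I * u)) := by
  rw [← intervalIntegral.integral_neg, ← cov_iiC _ hT]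
  refine intervalIntegral.integral_congr fun Y hY => ?_
  rw [uIcc_of_le (Real.exp_le_exp.2 hT)] at hY
  have h0 : 0 < Y := (Real.exp_pos 1).trans_le hY.1
  have h0c : (Y : ℂ) ≠ 0 := by exact_mod_cast h0.ne'
  have h1 : (Y : ℂ) ^ (-(t * I)) = exp (-(t * I * Real.log Y)) := by
    rw [cpow_def_of_ne_zero h0c, ← Complex.ofReal_log h0.le]
    congr 1
    ring
  rw [dvR_sh E he ρ A h0, h1]
  push_cast
  ring

theorem mu_congr {F₁ F₂ : ℂ → ℂ} {t : ℝ} (h : ∀ᶠ s in 𝓝 ((t : ℂ) * I), F₁ s = F₂ s) :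
    mu F₁ t = mu F₂ t := by
  unfold mu
  rw [analyticOrderAt_congr h]

theorem mu_eq (H : Mc N α Ψ G₀ k κ η C) {t : ℝ} (ht : t ≠ 0) : mu G₀ t = mu Ψ t := by
  have hη := H.hη
  have h0 : (t : ℂ) * I ≠ 0 := mul_ne_zero (by exact_mod_cast ht) I_ne_zero
  have h1 : ∀ᶠ s in 𝓝 ((t : ℂ) * I), -η < s.re := (open_re (-η)).mem_nhds (by
    show -η < ((t : ℂ) * I).re
    simp [hη])
  have h2 : ∀ᶠ s in 𝓝 ((t : ℂ) * I), s ≠ 0 := isOpen_ne.mem_nhds h0
  have h3 : ∀ᶠ s in 𝓝 ((t : ℂ) * I), G₀ s = s ^ k * Ψ s := by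
    filter_upwards [h1, h2] with s h3 h4
    exact H.hΨ s h3 h4
  have aG : AnalyticAt ℂ G₀ ((t : ℂ) * I) :=
    (DifferentiableOn.analyticOnNhd (fun z hz => (H.hG z hz).differentiableWithinAt)
      (open_re (-η))) _ (by
        show -η < ((t : ℂ) * I).re
        simp [hη])
  have ap : AnalyticAt ℂ (fun s : ℂ => s ^ k) ((t : ℂ) * I) := analyticAt_id.pow k
  have aΨ : AnalyticAt ℂ Ψ ((t : ℂ) * I) := by
    have h4 : AnalyticAt ℂ (fun s => G₀ s / s ^ k) ((t : ℂ) * I) :=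
      aG.div ap (pow_ne_zero _ h0)
    refine h4.congr ?_
    filter_upwards [h3, h2] with s h5 h6
    rw [h5]
    field_simp
  unfold mu
  rw [analyticOrderAt_congr h3]
  have h5 : analyticOrderAt (fun s => s ^ k * Ψ s) ((t : ℂ) * I) =
      analyticOrderAt (fun s : ℂ => s ^ k) ((t : ℂ) * I) + analyticOrderAt Ψ ((t : ℂ) * I) :=
    analyticOrderAt_mul ap aΨ
  have h6 : analyticOrderAt (fun s : ℂ => s ^ k) ((t : ℂ) * I) = 0 := by
    rw [ap.analyticOrderAt_eq_zero]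
    exact pow_ne_zero _ h0
  rw [h5, h6, zero_add]

theorem mu_sq (H : Mc N α Ψ G₀ k κ η C) :
    (fun t : ℝ => ((mu G₀ t : ℝ) / t) ^ 2) = fun t : ℝ => ((mu Ψ t : ℝ) / t) ^ 2 := by
  funext t
  by_cases ht : t = 0
  · rw [ht]
    simp
  · rw [mu_eq H ht]

/-- the leading coefficient and the Riemann hypothesis in the two languages -/
theorem mc_key (H : Mc N α Ψ G₀ k κ η C) {g : ℂ → ℂ} {p : ℕ} {e : X × ℕ → ℕ}
    (he : Function.Injective e)
    (Q : Cn (lamS N e) (cS' N α e) (Real.log 2) 1 G₀ g k p κ η C) (ρ : ℝ) {A : ℝ} (hA : 0 < A) :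
    ((∀ s : ℂ, 0 < s.re → Ψ s ≠ 0) ∧ ∃ m : ℤ, ρ = m ∧
      Tendsto (fun s => Ψ s / s ^ m) (𝓝[≠] 0) (𝓝 (A : ℂ))) ↔
      ((∀ s : ℂ, 0 < s.re → G₀ s ≠ 0) ∧ (p : ℝ) = k + ρ ∧
        g 0 = Real.exp (ρ * Real.eulerMascheroniConstant -
          (ρ * Real.eulerMascheroniConstant - Real.log A))) := by
  have t2 := (Pool.Agent.Q5.MS.lead_real H ρ hA).out 0 1
  have t3 := (Q.tfae ρ (ρ * Real.eulerMascheroniConstant - Real.log A)).out 0 1
  rw [t2, dvR_sq H.E he, t3]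

/-- **The exact mean square as a criterion**, Euler products. -/
theorem mc_tfae (H : Mc N α Ψ G₀ k κ η C) (ρ : ℝ) {A : ℝ} (hA : 0 < A) : List.TFAE [
    (∀ s : ℂ, 0 < s.re → Ψ s ≠ 0) ∧ ∃ m : ℤ, ρ = m ∧
      Tendsto (fun s => Ψ s / s ^ m) (𝓝[≠] 0) (𝓝 (A : ℂ)),
    ∃ B : ℝ, ∀ᶠ Y : ℝ in atTop,
      ∫ y in Real.exp 1..Y, (Real.log y * DvR N α ρ A y) ^ 2 / y ≤ B * Real.log Y,
    ∃ V : ℝ, HasSum (fun t : ℝ => ((mu Ψ t : ℝ) / t) ^ 2) V ∧
      Tendsto (fun Y : ℝ => (∫ y in Real.exp 1..Y, (Real.log y * DvR N α ρ A y) ^ 2 / y) /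
        Real.log Y) atTop (𝓝 V)] := by
  obtain ⟨e, g, p, he, Q⟩ := H.cn
  set q : ℝ := ρ * Real.eulerMascheroniConstant - Real.log A with hq
  have t := cn_tfae Q ρ q
  rw [mc_key H he Q ρ hA]
  tfae_have 1 ↔ 2 := by
    have h1 := t.out 0 1
    rw [h1]
    refine exists_congr fun B => ?_
    rw [eventually_exp_iff (f := fun Y => ∫ y in Real.exp 1..Y,
      (Real.log y * DvR N α ρ A y) ^ 2 / y ≤ B * Real.log Y)]
    constructor
    · intro h
      filter_upwards [h, eventually_ge_atTop 1] with T h2 hT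
      rw [dvR_wsq H.E he ρ A hT, Real.log_exp]
      exact h2
    · intro h
      filter_upwards [h, eventually_ge_atTop 1] with T h2 hT
      rw [dvR_wsq H.E he ρ A hT, Real.log_exp] at h2
      exact h2
  tfae_have 1 ↔ 3 := by
    have h1 := t.out 0 2
    rw [h1, mu_sq H]
    refine exists_congr fun V => and_congr_right fun _ => ?_
    rw [tendsto_exp_iff (f := fun Y => (∫ y in Real.exp 1..Y,
      (Real.log y * DvR N α ρ A y) ^ 2 / y) / Real.log Y)]
    refine tendsto_congr' ?_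
    filter_upwards [eventually_ge_atTop 1] with T hT
    rw [dvR_wsq H.E he ρ A hT, Real.log_exp]
  tfae_finish

/-- **The Fourier-Bohr coefficients**, Euler products. -/
theorem mc_coeff (H : Mc N α Ψ G₀ k κ η C) (ρ A : ℝ)
    (h : ∃ B : ℝ, ∀ᶠ Y : ℝ in atTop,
      ∫ y in Real.exp 1..Y, (Real.log y * DvR N α ρ A y) ^ 2 / y ≤ B * Real.log Y) (t : ℝ) :
    Tendsto (fun Y : ℝ => (∫ y in Real.exp 1..Y, ((Real.log y * DvR N α ρ A y : ℝ) : ℂ) *
      (y : ℂ) ^ (-(t * I)) / (y : ℂ)) / (Real.log Y : ℂ)) atTop (𝓝 ((mu Ψ t : ℂ) * I / t)) := by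
  obtain ⟨e, g, p, he, Q⟩ := H.cn
  set q : ℝ := ρ * Real.eulerMascheroniConstant - Real.log A with hq
  obtain ⟨B, hB⟩ := h
  have h1 := (cn_tfae Q ρ q).out 1 0
  obtain ⟨h2, h3, h4⟩ := h1.1 ⟨B, by
    rw [eventually_exp_iff (f := fun Y => ∫ y in Real.exp 1..Y,
      (Real.log y * DvR N α ρ A y) ^ 2 / y ≤ B * Real.log Y)] at hB
    filter_upwards [hB, eventually_ge_atTop 1] with T h2 hT
    rw [dvR_wsq H.E he ρ A hT, Real.log_exp] at h2
    exact h2⟩
  have h5 := (cn_coeff Q h2 h3 h4 t).neg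
  have h6 : -((mu G₀ t : ℂ) / (t * I)) = (mu Ψ t : ℂ) * I / t := by
    by_cases ht : t = 0
    · rw [ht]
      simp
    · have htc : (t : ℂ) ≠ 0 := by exact_mod_cast ht
      rw [mu_eq H ht]
      have hI := Complex.I_mul_I
      field_simp
      linear_combination (-(mu Ψ t : ℂ)) * hI
  rw [h6] at h5
  have h7 : Tendsto (fun T : ℝ => (∫ y in Real.exp 1..Real.exp T,
      ((Real.log y * DvR N α ρ A y : ℝ) : ℂ) * (y : ℂ) ^ (-(t * I)) / (y : ℂ)) /
        (Real.log (Real.exp T) : ℂ)) atTop (𝓝 ((mu Ψ t : ℂ) * I / t)) := by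
    refine h5.congr' ?_
    filter_upwards [eventually_ge_atTop 1] with T hT
    rw [dvR_coeff H.E he ρ A t hT, Real.log_exp, neg_div]
  have h8 := h7.comp Real.tendsto_log_atTop
  refine h8.congr' ?_
  filter_upwards [eventually_gt_atTop 0] with Y hY
  simp only [Function.comp_apply]
  rw [Real.exp_log hY]

end Pool.Agent.Q5.BP
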