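import Pool.Agent.Q5.BP.Hardy
import Pool.Agent.Q5.BP.Thm

/-!
# The mean square law for Euler products, without a continuation
-/

set_option autoImplicit false

open MeasureTheory Filter Topology Set Complex
open scoped ENNReal
open Pool.Agent.TH942.LS (Dat)
open Pool.Agent.TH942.SL (DD)
open Pool.Agent.TH270.MS (Sh DvR dvR_sh dvR_sq)
open Pool.Agent.TH942.ES (lamS Sys LE cS)
open Pool.Agent.TH270.RS (cS' dat' DD_neg)

namespace Pool.Agent.Q5.BP

variable {X : Type} {d : ℕ} {N : X → ℕ} {α : X → Fin d → ℂ} {e : X × ℕ → ℕ}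

theorem cov_lint (φ : ℝ → ℝ≥0∞) :
    ∫⁻ Y in Ioi (1 : ℝ), φ (Real.log Y) * ENNReal.ofReal (1 / Y) = ∫⁻ u in Ioi (0 : ℝ), φ u := by
  have himg : Real.exp '' Ioi 0 = Ioi 1 := by
    ext x
    constructor
    · rintro ⟨t, ht, rfl⟩
      exact Real.one_lt_exp_iff.2 ht
    · intro hx
      have hx1 : (1 : ℝ) < x := hx
      have h0 : 0 < x := by linarith
      exact ⟨Real.log x, Real.log_pos hx1, Real.exp_log h0⟩
  rw [← himg, lintegral_image_eq_lintegral_abs_deriv_mul measurableSet_Ioi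
    (fun x _ => (Real.hasDerivAt_exp x).hasDerivWithinAt) Real.exp_injective.injOn]
  refine setLIntegral_congr_fun measurableSet_Ioi fun t _ => ?_
  have h0 := Real.exp_pos t
  simp only [Real.log_exp, abs_of_pos h0]
  rw [mul_comm, mul_assoc, ← ENNReal.ofReal_mul (by positivity), one_div_mul_cancel h0.ne',
    ENNReal.ofReal_one, mul_one]

/-- **The mean square law and the Hardy space**, Euler products without a continuation. -/
theorem sys_hardy (E : Sys N α) (hreal : ∀ v k, (∑ i, Pool.Agent.TH942.ES.zv N α v i ^ k).im = 0)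
    (ρ : ℝ) {A : ℝ} (hA : 0 < A) :
    (IntegrableOn (fun Y : ℝ => DvR N α ρ A Y ^ 2 / Y) (Ioi (Real.exp 1)) ↔
      ∃ H : ℂ → ℂ, H2 H ∧ ∀ s : ℂ, 1 / 2 < s.re → LE N α s = A * s ^ (ρ : ℂ) * exp (s * H s)) ∧
    (IntegrableOn (fun Y : ℝ => DvR N α ρ A Y ^ 2 / Y) (Ioi (Real.exp 1)) →
      ∃ H : ℂ → ℂ, H2 H ∧ (∀ s : ℂ, 1 / 2 < s.re → LE N α s = A * s ^ (ρ : ℂ) * exp (s * H s)) ∧
        (∀ x : ℝ, 0 < x → ∫⁻ t : ℝ, ‖H (x + t * I)‖ₑ ^ 2 = ENNReal.ofReal (2 * Real.pi) *
          ∫⁻ Y in Ioi (1 : ℝ), ENNReal.ofReal (DvR N α ρ A Y ^ 2 * Y ^ (-(2 * x)) / Y)) ∧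
        Tendsto (fun x : ℝ => (x : ℂ) * H x) (𝓝[>] 0) (𝓝 0)) := by
  have := E.cnt
  obtain ⟨e, he⟩ := Countable.exists_injective_nat (X × ℕ)
  have D := dat' E he
  set q : ℝ := ρ * Real.eulerMascheroniConstant - Real.log A with hq
  have hAc : (A : ℂ) ≠ 0 := by exact_mod_cast hA.ne'
  -- the identity
  have hform : ∀ s : ℂ, 0 < s.re → ∀ w : ℂ,
      exp (ρ * (Real.eulerMascheroniConstant + log s) - (q : ℝ) + w) = A * s ^ (ρ : ℂ) * exp w := by
    intro s hs w
    have hs0 := ne_zero_of_re hs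
    rw [hq, cpow_def_of_ne_zero hs0]
    have e1 : (ρ : ℂ) * (Real.eulerMascheroniConstant + log s) -
        ((ρ * Real.eulerMascheroniConstant - Real.log A : ℝ) : ℂ) + w =
        (Real.log A : ℂ) + log s * ρ + w := by
      push_cast
      ring
    rw [e1, exp_add, exp_add, ← Complex.ofReal_exp, Real.exp_log hA]
  have hDD : ∀ s : ℂ, 1 < s.re → exp (-DD (lamS N e) (cS' N α e) s) = LE N α s := by
    intro s hs
    rw [DD_neg, E.exp_DD hreal he (by linarith)]
  have hext : ∀ H : ℂ → ℂ, H2 H → ((∀ s : ℂ, 1 < s.re → exp (-DD (lamS N e) (cS' N α e) s) =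
      exp (ρ * (Real.eulerMascheroniConstant + log s) - (q : ℝ) + s * H s)) ↔
      ∀ s : ℂ, 1 / 2 < s.re → LE N α s = A * s ^ (ρ : ℂ) * exp (s * H s)) := by
    intro H hH
    constructor
    · intro h
      have hU : IsOpen {s : ℂ | 1 / 2 < s.re} := open_re _
      have hUc : IsPreconnected {s : ℂ | 1 / 2 < s.re} := (conv_re _).isPreconnected
      have a1 : AnalyticOnNhd ℂ (LE N α) {s : ℂ | 1 / 2 < s.re} :=
        DifferentiableOn.analyticOnNhd (fun s hs =>
          (E.LE_diff hs).1.differentiableWithinAt) hU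
      have a2 : AnalyticOnNhd ℂ (fun s => A * s ^ (ρ : ℂ) * exp (s * H s)) {s : ℂ | 1 / 2 < s.re} := by
        refine DifferentiableOn.analyticOnNhd (fun s hs => ?_) hU
        have hs' : 1 / 2 < s.re := hs
        have h0 : 0 < s.re := by linarith
        have h1 : DifferentiableAt ℂ (fun s : ℂ => s ^ (ρ : ℂ)) s :=
          differentiableAt_id.cpow_const (Or.inl h0)
        exact ((h1.const_mul _).mul
          ((differentiableAt_id.mul (hH.diff s h0)).cexp)).differentiableWithinAt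
      have h3 : (2 : ℂ) ∈ {s : ℂ | 1 / 2 < s.re} := by
        show 1 / 2 < (2 : ℂ).re
        norm_num
      have h4 : ∀ᶠ z in 𝓝 (2 : ℂ), LE N α z = A * z ^ (ρ : ℂ) * exp (z * H z) := by
        filter_upwards [(open_re 1).mem_nhds (show (1 : ℝ) < (2 : ℂ).re by norm_num)] with z hz
        rw [← hDD z hz, h z hz, hform z (by linarith [show (1 : ℝ) < z.re from hz])]
      exact fun s hs => a1.eqOn_of_preconnected_of_eventuallyEq a2 hUc h3 h4 hs
    · intro h s hs
      rw [hDD s hs, h s (by linarith), hform s (by linarith)]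
  have main := hardy D ρ q
  rw [← dvR_sq E he] at main
  have h1 : (∃ H : ℂ → ℂ, H2 H ∧ ∀ s : ℂ, 1 < s.re → exp (-DD (lamS N e) (cS' N α e) s) =
      exp (ρ * (Real.eulerMascheroniConstant + log s) - (q : ℝ) + s * H s)) ↔
      ∃ H : ℂ → ℂ, H2 H ∧ ∀ s : ℂ, 1 / 2 < s.re → LE N α s = A * s ^ (ρ : ℂ) * exp (s * H s) :=
    exists_congr fun H => and_congr_right fun hH => hext H hH
  refine ⟨main.trans h1, fun hI => ?_⟩
  have hI' := (dvR_sq E he ρ A).1 hI
  have HH : HL (hh (lamS N e) (cS' N α e) ρ q) := hh_HL D hI'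
  have HN : HL (fun u => -hh (lamS N e) (cS' N α e) ρ q u) :=
    ⟨fun u hu => by rw [HH.zero u hu, neg_zero], HH.sq.neg⟩
  have hneg : ∀ s, La (fun u => -hh (lamS N e) (cS' N α e) ρ q u) s =
      -La (hh (lamS N e) (cS' N α e) ρ q) s := by
    intro s
    unfold La
    rw [← integral_neg]
    refine integral_congr_ae (Eventually.of_forall fun u => ?_)
    simp only
    ring
  refine ⟨La (fun u => -hh (lamS N e) (cS' N α e) ρ q u), HN.h2, ?_, fun x hx => ?_, ?_⟩
  · refine (hext _ HN.h2).1 fun s hs => ?_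
    rw [hneg s, mul_neg, la_eq D ρ q hs]
    congr 1
    ring
  · have h2 := planch (f := fun u => -hh (lamS N e) (cS' N α e) ρ q u) (x := x)
      (HN.int (by simpa using hx)) (HN.memLp_exp hx.le)
    have h4 : ENNReal.ofReal (2 * Real.pi) * ENNReal.ofReal (1 / (2 * Real.pi)) = 1 := by
      rw [← ENNReal.ofReal_mul (by positivity), mul_one_div_cancel (by positivity),
        ENNReal.ofReal_one]
    have h5 : ∫⁻ t : ℝ, ‖La (fun u => -hh (lamS N e) (cS' N α e) ρ q u) (x + t * I)‖ₑ ^ 2 =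
        ENNReal.ofReal (2 * Real.pi) * ∫⁻ u : ℝ,
          ‖-hh (lamS N e) (cS' N α e) ρ q u * exp (-((x : ℂ) * u))‖ₑ ^ 2 := by
      rw [h2, ← mul_assoc, h4, one_mul]
    rw [h5]
    congr 1
    have h6 : ∫⁻ u : ℝ, ‖-hh (lamS N e) (cS' N α e) ρ q u * exp (-((x : ℂ) * u))‖ₑ ^ 2 =
        ∫⁻ u in Ioi (0 : ℝ), ENNReal.ofReal
          ((Sh (lamS N e) (cS' N α e) u - ρ * Real.log u - q) ^ 2 * Real.exp (-(2 * x) * u)) := by
      rw [← lintegral_indicator measurableSet_Ioi]
      refine lintegral_congr fun u => ?_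
      by_cases hu : u ∈ Ioi (0 : ℝ)
      · rw [indicator_of_mem hu, hh_pos ρ q hu, ← ofReal_norm, ← ENNReal.ofReal_pow (norm_nonneg _),
          norm_mul, norm_exp_neg', Complex.ofReal_re, norm_neg, Complex.norm_real,
          Real.norm_eq_abs, mul_pow, sq_abs, ← Real.exp_nat_mul]
        congr 3
        push_cast
        ring
      · rw [indicator_of_notMem hu, hh_zero ρ q (not_lt.1 hu)]
        simp
    rw [h6, ← cov_lint]
    refine setLIntegral_congr_fun measurableSet_Ioi fun Y hY => ?_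
    have hY1 : (1 : ℝ) < Y := hY
    have hY0 : 0 < Y := by linarith
    rw [← ENNReal.ofReal_mul (by positivity), dvR_sh E he ρ A hY0, neg_sq,
      Real.rpow_def_of_pos hY0]
    congr 1
    rw [mul_comm (Real.log Y)]
    ring
  · have h2 := HN.lim
    exact h2

end Pool.Agent.Q5.BP
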