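import Pool.Agent.Q5.BP.Time

/-!
# The mean square
-/

set_option autoImplicit false

open MeasureTheory Filter Topology Set Complex
open scoped ENNReal

namespace Pool.Agent.Q5.BP

variable {h : ℝ → ℂ} {F : ℂ → ℂ} {p κ : ℕ} {η C a B : ℝ} {κ₀ : ℂ}

/-! ### trigonometric polynomials -/

theorem exp_mean {δ : ℝ} (hδ : δ ≠ 0) :
    Tendsto (fun T : ℝ => (∫ u in (0 : ℝ)..T, exp (δ * I * u)) / T) atTop (𝓝 0) := by
  have hδc : (δ : ℂ) * I ≠ 0 := mul_ne_zero (by exact_mod_cast hδ) I_ne_zero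
  have h1 : Tendsto (fun T : ℝ => 2 / |δ| / T) atTop (𝓝 0) := tendsto_const_nhds.div_atTop tendsto_id
  refine squeeze_zero_norm' ?_ h1
  filter_upwards [eventually_gt_atTop 0] with T hT
  rw [integral_exp_mul_complex hδc, norm_div, norm_div, Complex.norm_real,
    Real.norm_of_nonneg hT.le, norm_mul, Complex.norm_I, mul_one, Complex.norm_real,
    Real.norm_eq_abs]
  have h2 : ∀ v : ℝ, ‖exp ((δ : ℂ) * I * v)‖ = 1 := by
    intro v
    rw [Complex.norm_exp]
    simp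
  have h3 := norm_sub_le (exp ((δ : ℂ) * I * T)) (exp ((δ : ℂ) * I * (0 : ℝ)))
  rw [h2, h2] at h3
  have h4 : 0 < |δ| := abs_pos.2 hδ
  apply div_le_div_of_nonneg_right _ hT.le
  exact div_le_div_of_nonneg_right (by linarith) h4.le

theorem trig_mean (Z : Finset ℝ) (c : ℝ → ℂ) :
    Tendsto (fun T : ℝ => (∫ u in (0 : ℝ)..T, ‖∑ τ ∈ Z, c τ * exp (τ * I * u)‖ ^ 2) / T) atTop
      (𝓝 (∑ τ ∈ Z, ‖c τ‖ ^ 2)) := by
  have hpt : ∀ u : ℝ, ((‖∑ τ ∈ Z, c τ * exp (τ * I * u)‖ ^ 2 : ℝ) : ℂ) =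
      ∑ τ ∈ Z, ∑ τ' ∈ Z, (c τ * (starRingEnd ℂ) (c τ')) * exp (((τ - τ' : ℝ) : ℂ) * I * u) := by
    intro u
    rw [Complex.ofReal_pow, ← Complex.mul_conj', map_sum, Finset.sum_mul_sum]
    refine Finset.sum_congr rfl fun τ _ => Finset.sum_congr rfl fun τ' _ => ?_
    rw [map_mul, ← Complex.exp_conj]
    have h1 : (starRingEnd ℂ) ((τ' : ℂ) * I * u) = -(τ' * I * u) := by
      simp
    rw [h1]
    have h2 : exp (((τ - τ' : ℝ) : ℂ) * I * u) = exp ((τ : ℂ) * I * u) * exp (-(τ' * I * u)) := by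
      rw [← exp_add]
      congr 1
      push_cast
      ring
    rw [h2]
    ring
  have hint : ∀ T : ℝ, (((∫ u in (0 : ℝ)..T, ‖∑ τ ∈ Z, c τ * exp (τ * I * u)‖ ^ 2) / T : ℝ) : ℂ) =
      ∑ τ ∈ Z, ∑ τ' ∈ Z, (c τ * (starRingEnd ℂ) (c τ')) *
        ((∫ u in (0 : ℝ)..T, exp (((τ - τ' : ℝ) : ℂ) * I * u)) / T) := by
    intro T
    rw [Complex.ofReal_div, ← intervalIntegral.integral_ofReal]
    simp_rw [hpt]
    rw [intervalIntegral.integral_finset_sum]
    · rw [Finset.sum_div]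
      refine Finset.sum_congr rfl fun τ _ => ?_
      rw [intervalIntegral.integral_finset_sum]
      · rw [Finset.sum_div]
        refine Finset.sum_congr rfl fun τ' _ => ?_
        rw [intervalIntegral.integral_const_mul]
        ring
      · intro τ' _
        exact Continuous.intervalIntegrable (by fun_prop) _ _
    · intro τ _
      exact Continuous.intervalIntegrable (by fun_prop) _ _
  have hlim : Tendsto (fun T : ℝ => (((∫ u in (0 : ℝ)..T,
      ‖∑ τ ∈ Z, c τ * exp (τ * I * u)‖ ^ 2) / T : ℝ) : ℂ)) atTop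
      (𝓝 (∑ τ ∈ Z, ∑ τ' ∈ Z, if τ = τ' then (c τ * (starRingEnd ℂ) (c τ')) else 0)) := by
    simp_rw [hint]
    refine tendsto_finset_sum _ fun τ _ => tendsto_finset_sum _ fun τ' _ => ?_
    by_cases hττ : τ = τ'
    · rw [if_pos hττ]
      have h1 : ∀ᶠ T : ℝ in atTop, (c τ * (starRingEnd ℂ) (c τ')) =
          (c τ * (starRingEnd ℂ) (c τ')) *
          ((∫ u in (0 : ℝ)..T, exp (((τ - τ' : ℝ) : ℂ) * I * u)) / T) := by
        filter_upwards [eventually_gt_atTop 0] with T hT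
        rw [hττ, sub_self]
        have hTc : (T : ℂ) ≠ 0 := by exact_mod_cast hT.ne'
        simp [div_self hTc]
      exact tendsto_const_nhds.congr' h1
    · rw [if_neg hττ]
      have := (exp_mean (sub_ne_zero.2 hττ)).const_mul (c τ * (starRingEnd ℂ) (c τ'))
      rwa [mul_zero] at this
  have h2 : (∑ τ ∈ Z, ∑ τ' ∈ Z, if τ = τ' then (c τ * (starRingEnd ℂ) (c τ')) else 0) =
      ((∑ τ ∈ Z, ‖c τ‖ ^ 2 : ℝ) : ℂ) := by
    rw [Complex.ofReal_sum]
    refine Finset.sum_congr rfl fun τ hτ => ?_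
    rw [Finset.sum_ite_eq, if_pos hτ, Complex.ofReal_pow, ← Complex.mul_conj']
  rw [h2] at hlim
  have h3 := (Complex.continuous_re.tendsto _).comp hlim
  simpa only [Function.comp_def, Complex.ofReal_re] using h3

/-! ### the norms -/

/-- the quadratic mean -/
noncomputable def NT (f : ℝ → ℂ) (T : ℝ) : ℝ :=
  (eLpNorm f 2 (volume.restrict (Ioc 0 T))).toReal / √T

theorem el_sq (f : ℝ → ℂ) (μ : Measure ℝ) : eLpNorm f 2 μ ^ 2 = ∫⁻ u, ‖f u‖ₑ ^ 2 ∂μ := by
  rw [eLpNorm_eq_lintegral_rpow_enorm_toReal (by norm_num) (by norm_num)]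
  simp only [ENNReal.toReal_ofNat, ENNReal.rpow_ofNat, one_div]
  rw [← ENNReal.rpow_natCast, ← ENNReal.rpow_mul]
  norm_num

theorem NT_sq {f : ℝ → ℂ} {T : ℝ} (hT : 0 < T) (hf : MemLp f 2 (volume.restrict (Ioc 0 T))) :
    NT f T ^ 2 = (∫ u in (0 : ℝ)..T, ‖f u‖ ^ 2) / T := by
  have h1 := el_sq f (volume.restrict (Ioc 0 T))
  have h2 : ∫⁻ u in Ioc 0 T, ‖f u‖ₑ ^ 2 = ENNReal.ofReal (∫ u in Ioc 0 T, ‖f u‖ ^ 2) := by
    rw [ofReal_integral_eq_lintegral_ofReal
      ((memLp_two_iff_integrable_sq_norm hf.aestronglyMeasurable).1 hf)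
      (Eventually.of_forall fun u => by positivity)]
    exact lintegral_congr fun u => enorm_sq_of
  unfold NT
  rw [div_pow, Real.sq_sqrt hT.le, ← ENNReal.toReal_pow, h1, h2,
    ENNReal.toReal_ofReal (integral_nonneg fun u => by positivity),
    intervalIntegral.integral_of_le hT.le]

theorem NT_sub {f g : ℝ → ℂ} {T : ℝ} (hf : MemLp f 2 (volume.restrict (Ioc 0 T)))
    (hg : MemLp g 2 (volume.restrict (Ioc 0 T))) :
    |NT f T - NT g T| ≤ NT (fun u => f u - g u) T := by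
  have key : ∀ {f g : ℝ → ℂ}, MemLp f 2 (volume.restrict (Ioc 0 T)) →
      MemLp g 2 (volume.restrict (Ioc 0 T)) → (eLpNorm f 2 (volume.restrict (Ioc 0 T))).toReal ≤
      (eLpNorm g 2 (volume.restrict (Ioc 0 T))).toReal +
        (eLpNorm (fun u => f u - g u) 2 (volume.restrict (Ioc 0 T))).toReal := by
    intro f g hf hg
    have h1 : MemLp (fun u => f u - g u) 2 (volume.restrict (Ioc 0 T)) := hf.sub hg
    have h2 : eLpNorm f 2 (volume.restrict (Ioc 0 T)) ≤ eLpNorm g 2 (volume.restrict (Ioc 0 T)) +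
        eLpNorm (fun u => f u - g u) 2 (volume.restrict (Ioc 0 T)) := by
      have h3 := eLpNorm_add_le hg.aestronglyMeasurable h1.aestronglyMeasurable
        (p := 2) (by norm_num)
      refine le_trans (le_of_eq ?_) h3
      congr 1
      funext u
      simp
    rw [← ENNReal.toReal_add hg.eLpNorm_lt_top.ne h1.eLpNorm_lt_top.ne]
    exact ENNReal.toReal_mono (ENNReal.add_ne_top.2 ⟨hg.eLpNorm_lt_top.ne, h1.eLpNorm_lt_top.ne⟩) h2
  have h1 := key hf hg
  have h2 := key hg hf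
  have h3 : eLpNorm (fun u => g u - f u) 2 (volume.restrict (Ioc 0 T)) =
      eLpNorm (fun u => f u - g u) 2 (volume.restrict (Ioc 0 T)) := by
    have := eLpNorm_sub_comm g f 2 (volume.restrict (Ioc 0 T))
    exact this
  rw [h3] at h2
  unfold NT
  have hs := Real.sqrt_nonneg T
  rw [← sub_div, abs_div, abs_of_nonneg hs]
  apply div_le_div_of_nonneg_right _ hs
  rw [abs_le]
  constructor <;> linarith

theorem HL.loc (H : HL h) (T : ℝ) : MemLp (fun u : ℝ => (u : ℂ) * h u) 2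
    (volume.restrict (Ioc 0 T)) := by
  have h1 : MemLp h 2 (volume.restrict (Ioc 0 T)) := H.sq.restrict _
  refine MemLp.mono' (g := fun u => |T| * ‖h u‖) (h1.norm.const_mul |T|)
    ((Continuous.aestronglyMeasurable (by fun_prop)).mul h1.aestronglyMeasurable) ?_
  filter_upwards [ae_restrict_mem measurableSet_Ioc] with u hu
  rw [norm_mul, Complex.norm_real, Real.norm_of_nonneg hu.1.le]
  exact mul_le_mul_of_nonneg_right (hu.2.trans (le_abs_self T)) (norm_nonneg _)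

theorem pz_loc (F : ℂ → ℂ) (Z : Finset ℝ) (T : ℝ) : MemLp (Pz F Z) 2
    (volume.restrict (Ioc 0 T)) := by
  have hc := pz_cont F Z
  rw [memLp_two_iff_integrable_sq_norm hc.aestronglyMeasurable]
  have h1 : Continuous fun u => ‖Pz F Z u‖ ^ 2 := (hc.norm).pow 2
  exact (h1.integrableOn_Icc (a := 0) (b := T)).mono_set Ioc_subset_Icc_self

/-! ### the zeros -/

theorem Bp.fin (Q : Bp h F p κ η C a B κ₀) (R : ℝ) : {t : ℝ | |t| ≤ R ∧ F (t * I) = 0}.Finite := by
  by_contra hinf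
  have hη := Q.hη
  have hK : IsCompact (Icc (-R) R) := isCompact_Icc
  obtain ⟨t, _, ht⟩ := Set.Infinite.exists_accPt_of_subset_isCompact hinf hK
    (fun t ht => ⟨(abs_le.1 ht.1).1, (abs_le.1 ht.1).2⟩)
  have h1 : ∃ᶠ y in 𝓝[≠] t, |y| ≤ R ∧ F (y * I) = 0 := by
    rw [accPt_iff_frequently_nhdsNE] at ht
    exact ht
  have hre : -η < ((t : ℂ) * I).re := by simp [hη]
  have hF := Q.ana hre
  have h2 : ∃ᶠ z in 𝓝[≠] ((t : ℂ) * I), F z = 0 := by
    have h3 : Tendsto (fun y : ℝ => (y : ℂ) * I) (𝓝[≠] t) (𝓝[≠] ((t : ℂ) * I)) := by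
      refine tendsto_nhdsWithin_iff.2 ⟨?_, ?_⟩
      · have : Continuous fun y : ℝ => (y : ℂ) * I := by fun_prop
        exact (this.tendsto t).mono_left nhdsWithin_le_nhds
      · filter_upwards [self_mem_nhdsWithin] with y hy h0
        apply hy
        have := mul_right_cancel₀ I_ne_zero h0
        exact_mod_cast this
    exact h3.frequently (h1.mono fun y hy => hy.2)
  have h4 := (hF.frequently_zero_iff_eventually_zero).1 h2
  exact Q.order_ne_top hre (analyticOrderAt_eq_top.2 h4)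

theorem Bp.exists_Z (Q : Bp h F p κ η C a B κ₀) (n : ℕ) : ∃ (R : ℝ) (Z : Finset ℝ),
    (n : ℝ) + 1 ≤ R ∧ R ≤ n + 2 ∧ (∀ τ ∈ Z, τ ≠ 0) ∧ (∀ τ ∈ Z, |τ| < R) ∧
    (∀ τ : ℝ, |τ| ≤ R → τ ≠ 0 → F (τ * I) = 0 → τ ∈ Z) ∧ ∀ τ ∈ Z, F (τ * I) = 0 := by
  classical
  have hfin := Q.fin (n + 2)
  set S := hfin.toFinset with hS
  have h1 : ((S.image fun t => |t|) : Set ℝ).Finite := (S.image fun t => |t|).finite_toSet
  obtain ⟨R, hR, hRS⟩ := (Set.Ioo_infinite (show (n : ℝ) + 1 < n + 2 by linarith)).exists_notMem_finset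
    (S.image fun t => |t|)
  refine ⟨R, S.filter fun t => t ≠ 0 ∧ |t| < R, hR.1.le, hR.2.le, ?_, ?_, ?_, ?_⟩
  · intro τ hτ
    exact (Finset.mem_filter.1 hτ).2.1
  · intro τ hτ
    exact (Finset.mem_filter.1 hτ).2.2
  · intro τ h2 h3 h4
    have h5 : τ ∈ S := by
      rw [hS, Set.Finite.mem_toFinset]
      exact ⟨h2.trans hR.2.le, h4⟩
    refine Finset.mem_filter.2 ⟨h5, h3, lt_of_le_of_ne h2 fun h6 => hRS ?_⟩
    rw [← h6]
    exact Finset.mem_image_of_mem _ h5
  · intro τ hτ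
    have h5 := (Finset.mem_filter.1 hτ).1
    rw [hS, Set.Finite.mem_toFinset] at h5
    exact h5.2

theorem Bp.mu_zero (Q : Bp h F p κ η C a B κ₀) {t : ℝ} (ht : F (t * I) ≠ 0) : mu F t = 0 := by
  have hη := Q.hη
  unfold mu
  have h2 : analyticOrderAt F (t * I) = 0 := by
    rw [(Q.ana (s := (t : ℂ) * I) (by simp [hη])).analyticOrderAt_eq_zero]
    exact ht
  rw [h2]
  rfl

/-- a function approximated by constants converges -/
theorem conv_of_approx {x : ℝ → ℝ} {y d : ℕ → ℝ} (hd : Tendsto d atTop (𝓝 0))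
    (hx : ∀ n, ∀ ε > 0, ∀ᶠ T in atTop, |x T - y n| ≤ d n + ε) :
    ∃ v : ℝ, Tendsto x atTop (𝓝 v) ∧ Tendsto y atTop (𝓝 v) := by
  have h1 : CauchySeq x := by
    rw [Metric.cauchySeq_iff]
    intro ε hε
    obtain ⟨n, hn⟩ := (hd.eventually (gt_mem_nhds (show (0 : ℝ) < ε / 4 by linarith))).exists
    obtain ⟨T₀, hT₀⟩ := eventually_atTop.1 (hx n (ε / 8) (by linarith))
    refine ⟨T₀, fun S hS T hT => ?_⟩
    have h2 := hT₀ S hS
    have h3 := hT₀ T hT
    rw [Real.dist_eq]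
    rw [abs_le] at h2 h3
    rw [abs_lt]
    constructor <;> linarith [h2.1, h2.2, h3.1, h3.2]
  obtain ⟨v, hv⟩ := cauchySeq_tendsto_of_complete h1
  refine ⟨v, hv, ?_⟩
  have h2 : ∀ n, |v - y n| ≤ d n := by
    intro n
    refine le_of_forall_pos_le_add fun ε hε => ?_
    exact le_of_tendsto ((hv.sub_const (y n)).abs) (hx n ε hε)
  rw [tendsto_iff_norm_sub_tendsto_zero]
  refine squeeze_zero (fun n => norm_nonneg _) (fun n => ?_) hd
  rw [Real.norm_eq_abs, abs_sub_comm]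
  exact h2 n

/-- **The mean square.** -/
theorem Bp.mean (Q : Bp h F p κ η C a B κ₀) : ∃ V : ℝ,
    HasSum (fun t : ℝ => ((mu F t : ℝ) / t) ^ 2) V ∧
    Tendsto (fun T : ℝ => (∫ u in (0 : ℝ)..T, ‖(u : ℂ) * h u‖ ^ 2) / T) atTop (𝓝 V) := by
  obtain ⟨K, hK0, hK⟩ := Q.approx
  choose R Z hR1 hR2 hZ0 hZR hZ hZF using Q.exists_Z
  set f : ℝ → ℂ := fun u => (u : ℂ) * h u with hf
  set w : ℝ → ℝ := fun t => ((mu F t : ℝ) / t) ^ 2 with hw
  have hw0 : ∀ t, 0 ≤ w t := fun t => sq_nonneg _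
  have hc : ∀ t : ℝ, ‖(mu F t : ℂ) / (t * I)‖ ^ 2 = w t := by
    intro t
    have e : w t = ((mu F t : ℝ) / t) ^ 2 := rfl
    rw [e, norm_div, norm_mul, Complex.norm_I, mul_one, Complex.norm_natCast,
      Complex.norm_real, Real.norm_eq_abs, div_pow, sq_abs, div_pow]
  set V : ℕ → ℝ := fun n => ∑ τ ∈ Z n, w τ with hV
  have hV0 : ∀ n, 0 ≤ V n := fun n => Finset.sum_nonneg fun τ _ => hw0 τ
  -- the quadratic means of the trigonometric polynomials
  have hP : ∀ n, Tendsto (NT (Pz F (Z n))) atTop (𝓝 √(V n)) := by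
    intro n
    have h1 := trig_mean (Z n) (fun τ => (mu F τ : ℂ) / (τ * I))
    simp only [hc] at h1
    have h2 := (Real.continuous_sqrt.tendsto _).comp h1
    refine h2.congr' ?_
    filter_upwards [eventually_gt_atTop 0] with T hT
    have h3 := NT_sq hT (pz_loc F (Z n) T)
    have h4 : 0 ≤ NT (Pz F (Z n)) T := by
      unfold NT
      positivity
    simp only [Function.comp_def]
    rw [← Real.sqrt_sq h4, h3]
    rfl
  -- the error
  set d : ℕ → ℝ := fun n => √(K * (tl (R n - 1)).toReal) with hdd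
  have hd : Tendsto d atTop (𝓝 0) := by
    have h1 : Tendsto (fun n => R n - 1) atTop atTop := by
      refine tendsto_atTop_mono (fun n => ?_) tendsto_natCast_atTop_atTop
      linarith [hR1 n]
    have h2 : Tendsto (fun n => (tl (R n - 1)).toReal) atTop (𝓝 0) := by
      have h3 := (ENNReal.tendsto_toReal ENNReal.zero_ne_top).comp (tl_tendsto.comp h1)
      rw [ENNReal.toReal_zero] at h3
      exact h3
    have h3 := h2.const_mul K
    rw [mul_zero] at h3
    have h4 := (Real.continuous_sqrt.tendsto _).comp h3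
    rw [Real.sqrt_zero] at h4
    exact h4
  have herr : ∀ n, ∀ ε > 0, ∀ᶠ T in atTop, NT (fun u => f u - Pz F (Z n) u) T ≤ d n + ε := by
    intro n ε hε
    obtain ⟨M, hM0, hM⟩ := hK (R n) (Z n) (by
      have : (0 : ℝ) ≤ n := n.cast_nonneg
      linarith [hR1 n]) (hZ0 n) (hZR n) (hZ n)
    have h1 : ∀ᶠ T : ℝ in atTop, M.toReal / T ≤ ε ^ 2 := by
      have h2 : Tendsto (fun T : ℝ => M.toReal / T) atTop (𝓝 0) :=
        tendsto_const_nhds.div_atTop tendsto_id
      exact (h2.eventually (gt_mem_nhds (show (0 : ℝ) < ε ^ 2 by positivity))).mono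
        fun T h => h.le
    filter_upwards [h1, eventually_ge_atTop 1] with T h2 hT
    have hT0 : 0 < T := by linarith
    have h3 := hM T hT
    have htl := (tl_lt (R n - 1)).ne
    have h4 : NT (fun u => f u - Pz F (Z n) u) T ^ 2 ≤
        M.toReal / T + K * (tl (R n - 1)).toReal := by
      unfold NT
      rw [div_pow, Real.sq_sqrt hT0.le, ← ENNReal.toReal_pow, el_sq]
      have h5 := ENNReal.toReal_mono (ENNReal.add_ne_top.2 ⟨hM0, ENNReal.mul_ne_top
        ENNReal.ofReal_ne_top htl⟩) h3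
      rw [ENNReal.toReal_add hM0 (ENNReal.mul_ne_top ENNReal.ofReal_ne_top htl),
        ENNReal.toReal_mul, ENNReal.toReal_ofReal (by positivity)] at h5
      rw [div_le_iff₀ hT0]
      refine h5.trans (le_of_eq ?_)
      field_simp
    have h5 : NT (fun u => f u - Pz F (Z n) u) T ^ 2 ≤ (d n + ε) ^ 2 := by
      have h6 : d n ^ 2 = K * (tl (R n - 1)).toReal := Real.sq_sqrt (by positivity)
      have h7 : 0 ≤ d n := Real.sqrt_nonneg _
      nlinarith
    have h8 : 0 ≤ d n + ε := add_nonneg (Real.sqrt_nonneg _) hε.le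
    exact abs_le_of_sq_le_sq' h5 h8 |>.2
  obtain ⟨v, hv1, hv2⟩ := conv_of_approx (x := NT f) (y := fun n => √(V n)) hd (by
    intro n ε hε
    have h1 := (hP n).eventually (Metric.ball_mem_nhds _ (half_pos hε))
    filter_upwards [h1, herr n (ε / 2) (half_pos hε)] with T h2 h3
    have h4 := NT_sub (Q.H.loc T) (pz_loc F (Z n) T)
    rw [Real.dist_eq] at h2
    have h4' : |NT f T - NT (Pz F (Z n)) T| ≤ NT (fun u => f u - Pz F (Z n) u) T := h4
    have h5 := abs_sub_le (NT f T) (NT (Pz F (Z n)) T) √(V n)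
    linarith)
  refine ⟨v ^ 2, ?_, ?_⟩
  · -- the sum
    have hVlim : Tendsto V atTop (𝓝 (v ^ 2)) := by
      have h1 := hv2.pow 2
      refine h1.congr fun n => ?_
      exact Real.sq_sqrt (hV0 n)
    have hsub : ∀ n m : ℕ, R n ≤ R m → V n ≤ V m := by
      intro n m hnm
      refine Finset.sum_le_sum_of_subset_of_nonneg (fun τ hτ => ?_) fun τ _ _ => hw0 τ
      exact hZ m τ ((hZR n τ hτ).le.trans hnm) (hZ0 n τ hτ) (hZF n τ hτ)
    have hfinal : ∀ s : Finset ℝ, ∃ n₀ : ℕ, ∀ n ≥ n₀, ∑ τ ∈ s, w τ ≤ V n := by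
      intro s
      obtain ⟨b, hb⟩ := (s.image fun t => |t|).exists_le
      obtain ⟨n₀, hn₀⟩ := exists_nat_ge b
      refine ⟨n₀, fun n hn => ?_⟩
      have h1 : ∑ τ ∈ s, w τ = ∑ τ ∈ s.filter (fun t => w t ≠ 0), w τ :=
        (Finset.sum_filter_ne_zero s).symm
      rw [h1]
      refine Finset.sum_le_sum_of_subset_of_nonneg (fun τ hτ => ?_) fun τ _ _ => hw0 τ
      obtain ⟨h2, h3⟩ := Finset.mem_filter.1 hτ
      have h4 : τ ≠ 0 := by
        rintro rfl
        apply h3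
        simp [hw]
      have h5 : F (τ * I) = 0 := by
        by_contra h6
        apply h3
        simp [hw, Q.mu_zero h6]
      have h6 : |τ| ≤ R n := by
        have h7 := hb |τ| (Finset.mem_image_of_mem _ h2)
        have h8 : (n₀ : ℝ) ≤ n := by exact_mod_cast hn
        linarith [hR1 n]
      exact hZ n τ h6 h4 h5
    have hle : ∀ n, V n ≤ v ^ 2 := by
      intro n
      refine ge_of_tendsto hVlim ?_
      filter_upwards [eventually_ge_atTop (n + 1)] with m hm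
      apply hsub
      have h8 : (n : ℝ) + 1 ≤ m := by exact_mod_cast hm
      linarith [hR1 m, hR2 n]
    refine hasSum_of_isLUB_of_nonneg _ hw0 ⟨?_, ?_⟩
    · rintro _ ⟨s, rfl⟩
      obtain ⟨n₀, hn₀⟩ := hfinal s
      exact (hn₀ n₀ le_rfl).trans (hle n₀)
    · intro b hb
      refine le_of_tendsto hVlim (Eventually.of_forall fun n => ?_)
      exact hb ⟨Z n, rfl⟩
  · have h1 := hv1.pow 2
    refine h1.congr' ?_
    filter_upwards [eventually_gt_atTop 0] with T hT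
    exact NT_sq hT (Q.H.loc T)

end Pool.Agent.Q5.BP
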