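import Pool.Agent.TH270.MS.Glob

/-!
# Square means of the logarithmic derivative over vertical lines
-/

set_option autoImplicit false

open MeasureTheory Filter Topology Set Complex
open scoped ENNReal
open Pool.Agent.TH270.MS (factor wq wq_meas avg_short wq_log_fin)
open Pool.Agent.TH270.MS.LocL2 (exists_log)

namespace Pool.Agent.Q5.BP

/-- the logarithmic derivative in a disc -/
theorem disc_deriv {a r r₂ R' R R₁ M m : ℝ} (ha : 1 ≤ a) (hr : a < r) (hr2 : r < r₂)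
    (hrR' : r₂ < R') (hR'R : R' < R) (hRR₁ : R < R₁) {f l : ℂ → ℂ}
    (hf : DifferentiableOn ℂ f (Metric.ball 0 R₁))
    (hM : ∀ s : ℂ, ‖s‖ ≤ R → ‖f s‖ ≤ M) (hexp : ∀ z : ℂ, -a < z.re → exp (l z) = f z)
    (hm : |(l 0).re| ≤ m) :
    ∃ (n : ℕ) (ρ : Fin n → ℂ), (n : ℝ) * Real.log (R / R') ≤ Real.log M + m ∧
      (∀ i, ‖ρ i‖ ≤ R' ∧ (ρ i).re ≤ -a) ∧ ∀ z : ℂ, -a < z.re → ‖z‖ ≤ r →
      ‖deriv f z / f z‖ ≤ ∑ i, 1 / ‖z - ρ i‖ + n * (R' / (R ^ 2 - R' * r)) +
        2 * r₂ / (R' - r₂) * (Real.log M + m + 1) / (r₂ - r) := by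
  have ha0 : 0 < a := by linarith
  have hr0 : 0 < r := by linarith
  have hR'0 : 0 < R' := by linarith
  have hR0 : 0 < R := by linarith
  have h00 : -a < (0 : ℂ).re := by simpa using ha0
  have hf0 : exp (l 0) = f 0 := hexp 0 h00
  have hf0' : f 0 ≠ 0 := by
    rw [← hf0]
    exact exp_ne_zero _
  obtain ⟨n, ρ, g, hn, hρ, hg, hg0, hgM, hg00, hfac⟩ := factor hR'0 hR'R hRR₁ hf hM hf0'
  have hlogf : Real.log ‖f 0‖ = (l 0).re := by rw [← hf0, norm_exp, Real.log_exp]
  have hMf : ‖f 0‖ ≤ M := hM 0 (by simpa using hR0.le)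
  have hfpos : 0 < ‖f 0‖ := norm_pos_iff.2 hf0'
  have hMpos : 0 < M := lt_of_lt_of_le hfpos hMf
  have hlogM : Real.log (M / ‖f 0‖) ≤ Real.log M + m := by
    rw [Real.log_div hMpos.ne' hfpos.ne', hlogf]
    linarith [neg_abs_le (l 0).re]
  have hρre : ∀ i, (ρ i).re ≤ -a := by
    intro i
    by_contra h
    push Not at h
    have h1 := hexp (ρ i) h
    rw [(hρ i).2] at h1
    exact exp_ne_zero _ h1
  -- the logarithm of `g`
  have hsub : Metric.ball (0 : ℂ) R' ⊆ Metric.ball 0 R₁ := Metric.ball_subset_ball (by linarith)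
  obtain ⟨ℓ, hℓd, hℓ⟩ := exists_log hR'0 (hg.mono hsub)
    (fun z hz => hg0 z (mem_ball_zero_iff.1 hz).le)
  have h0b : (0 : ℂ) ∈ Metric.ball (0 : ℂ) R' := Metric.mem_ball_self hR'0
  have hℓb : ∀ z : ℂ, ‖z‖ ≤ r₂ → ‖ℓ z - ℓ 0‖ ≤ 2 * r₂ / (R' - r₂) * (Real.log M + m + 1) := by
    intro z hz
    have hB : 0 < Real.log M + m + 1 := by
      have h1 : Real.log ‖f 0‖ ≤ Real.log M := Real.log_le_log hfpos hMf
      rw [hlogf] at h1
      linarith [neg_abs_le (l 0).re]
    have hre2 : ∀ w ∈ Metric.ball (0 : ℂ) R', (ℓ w).re = Real.log ‖g w‖ := by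
      intro w hw
      rw [← hℓ w hw, norm_exp, Real.log_exp]
    have hz' : z ∈ Metric.ball (0 : ℂ) R' := mem_ball_zero_iff.2 (by linarith)
    have h1 := borelCaratheodory_zero (f := fun z => ℓ z - ℓ 0) (R := R') (z := z) hB
      (fun w hw => ((hℓd w hw).sub_const _).differentiableWithinAt) (by
        intro w hw
        show (ℓ w - ℓ 0).re ≤ Real.log M + m + 1
        rw [sub_re, hre2 w hw, hre2 0 h0b]
        have h2 : Real.log ‖g w‖ ≤ Real.log M :=
          Real.log_le_log (norm_pos_iff.2 (hg0 w (mem_ball_zero_iff.1 hw).le))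
            (hgM w (by linarith [mem_ball_zero_iff.1 hw]))
        have h3 : Real.log ‖f 0‖ ≤ Real.log ‖g 0‖ := Real.log_le_log hfpos hg00
        rw [hlogf] at h3
        linarith [neg_abs_le (l 0).re]) hR'0 hz' (by simp)
    refine h1.trans ?_
    have h2 : 0 < R' - ‖z‖ := by linarith
    rw [div_mul_eq_mul_div, div_le_div_iff₀ h2 (by linarith)]
    have h3 : ‖z‖ * (R' - r₂) ≤ r₂ * (R' - ‖z‖) := by nlinarith [norm_nonneg z]
    nlinarith [norm_nonneg z]
  refine ⟨n, ρ, hn.trans hlogM, fun i => ⟨(hρ i).1, hρre i⟩, fun z hz hzr => ?_⟩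
  have hzR' : z ∈ Metric.ball (0 : ℂ) R' := mem_ball_zero_iff.2 (by linarith)
  -- the factors at `z`
  have hnum : ∀ i, z - ρ i ≠ 0 := by
    intro i h0
    have h1 : (z - ρ i).re = 0 := by rw [h0]; simp
    rw [sub_re] at h1
    linarith [hρre i]
  have hcz : ∀ i, ‖(starRingEnd ℂ) (ρ i) * z‖ ≤ R' * r := by
    intro i
    rw [norm_mul, RCLike.norm_conj]
    exact mul_le_mul (hρ i).1 hzr (norm_nonneg _) hR'0.le
  have hR2 : ‖(R : ℂ) ^ 2‖ = R ^ 2 := by
    rw [norm_pow, norm_real, Real.norm_eq_abs, abs_of_pos hR0]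
  have hRr : 0 < R ^ 2 - R' * r := by nlinarith
  have hden' : ∀ i, R ^ 2 - R' * r ≤ ‖(R : ℂ) ^ 2 - (starRingEnd ℂ) (ρ i) * z‖ := by
    intro i
    have h7 := norm_sub_norm_le ((R : ℂ) ^ 2) ((starRingEnd ℂ) (ρ i) * z)
    rw [hR2] at h7
    linarith [hcz i]
  have hden : ∀ i, (R : ℂ) ^ 2 - (starRingEnd ℂ) (ρ i) * z ≠ 0 := by
    intro i h0
    have := hden' i
    rw [h0, norm_zero] at this
    linarith
  have hRc : (R : ℂ) ≠ 0 := by exact_mod_cast hR0.ne'
  set b : Fin n → ℂ → ℂ := fun i s => R * (s - ρ i) / (R ^ 2 - (starRingEnd ℂ) (ρ i) * s) with hb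
  have hbd : ∀ i, HasDerivAt (b i) ((R * (R ^ 2 - (starRingEnd ℂ) (ρ i) * z) -
      R * (z - ρ i) * (-(starRingEnd ℂ) (ρ i))) / (R ^ 2 - (starRingEnd ℂ) (ρ i) * z) ^ 2) z := by
    intro i
    have h1 : HasDerivAt (fun s : ℂ => (R : ℂ) * (s - ρ i)) (R : ℂ) z := by
      have := ((hasDerivAt_id z).sub_const (ρ i)).const_mul (R : ℂ)
      rwa [mul_one] at this
    have h2 : HasDerivAt (fun s : ℂ => (R : ℂ) ^ 2 - (starRingEnd ℂ) (ρ i) * s)
        (-(starRingEnd ℂ) (ρ i)) z := by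
      have := ((hasDerivAt_id z).const_mul ((starRingEnd ℂ) (ρ i))).const_sub ((R : ℂ) ^ 2)
      rwa [mul_one] at this
    exact h1.div h2 (hden i)
  have hb0 : ∀ i, b i z ≠ 0 := fun i => div_ne_zero (mul_ne_zero hRc (hnum i)) (hden i)
  have hbl : ∀ i, logDeriv (b i) z = 1 / (z - ρ i) +
      (starRingEnd ℂ) (ρ i) / (R ^ 2 - (starRingEnd ℂ) (ρ i) * z) := by
    intro i
    rw [logDeriv_apply, (hbd i).deriv]
    have h1 := hnum i
    have h2 := hden i
    simp only [hb]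
    generalize (starRingEnd ℂ) (ρ i) = c at h2 ⊢
    field_simp
    ring
  have hev : f =ᶠ[𝓝 z] fun s => (∏ i, b i s) * g s := by
    have h1 : ∀ᶠ s : ℂ in 𝓝 z, ‖s‖ < R :=
      continuous_norm.continuousAt.eventually_lt continuousAt_const (by linarith)
    filter_upwards [h1] with s hs
    exact hfac s hs.le
  have hgz : g z ≠ 0 := hg0 z (by linarith)
  have hgd : DifferentiableAt ℂ g z :=
    hg.differentiableAt (Metric.isOpen_ball.mem_nhds (hsub hzR'))
  have hpd : DifferentiableAt ℂ (fun s => ∏ i, b i s) z :=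
    DifferentiableAt.fun_finsetProd fun i _ => (hbd i).differentiableAt
  have hp0 : ∏ i, b i z ≠ 0 := Finset.prod_ne_zero_iff.2 fun i _ => hb0 i
  have hl1 : deriv f z / f z = ∑ i, (1 / (z - ρ i) +
      (starRingEnd ℂ) (ρ i) / (R ^ 2 - (starRingEnd ℂ) (ρ i) * z)) + deriv ℓ z := by
    have e1 : deriv f z / f z = logDeriv (fun s => (∏ i, b i s) * g s) z := by
      rw [logDeriv_apply, hev.deriv_eq, hev.eq_of_nhds]
    have e2 : logDeriv g z = deriv ℓ z := by
      have h1 : g =ᶠ[𝓝 z] fun s => exp (ℓ s) := by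
        filter_upwards [Metric.isOpen_ball.mem_nhds hzR'] with s hs
        exact (hℓ s hs).symm
      rw [logDeriv_apply, h1.deriv_eq, (hℓd z hzR').hasDerivAt.cexp.deriv, h1.eq_of_nhds,
        mul_div_cancel_left₀ _ (exp_ne_zero _)]
    rw [e1, logDeriv_mul z hp0 hgz hpd hgd, e2,
      logDeriv_prod (s := Finset.univ) (f := b) (x := z) (fun i _ => hb0 i)
        (fun i _ => (hbd i).differentiableAt)]
    simp only [hbl]
  -- the derivative of `ℓ`
  have hℓ' : ‖deriv ℓ z‖ ≤ 2 * r₂ / (R' - r₂) * (Real.log M + m + 1) / (r₂ - r) := by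
    have e1 : deriv ℓ z = deriv (fun w => ℓ w - ℓ 0) z := by rw [deriv_sub_const]
    rw [e1]
    have hin : ∀ w ∈ Metric.closedBall z (r₂ - r), ‖w‖ ≤ r₂ := by
      intro w hw
      rw [Metric.mem_closedBall, dist_eq_norm] at hw
      have := norm_add_le (w - z) z
      rw [sub_add_cancel] at this
      linarith
    refine Complex.norm_deriv_le_of_forall_mem_sphere_norm_le (by linarith) ?_ fun w hw =>
      hℓb w (hin w (Metric.sphere_subset_closedBall hw))
    refine DifferentiableOn.diffContOnCl ?_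
    rw [closure_ball z (by linarith : r₂ - r ≠ 0)]
    intro w hw
    exact ((hℓd w (mem_ball_zero_iff.2 (by linarith [hin w hw]))).sub_const _).differentiableWithinAt
  rw [hl1]
  refine (norm_add_le _ _).trans (add_le_add ?_ hℓ')
  have e3 : (n : ℝ) * (R' / (R ^ 2 - R' * r)) = ∑ _i : Fin n, R' / (R ^ 2 - R' * r) := by
    rw [Finset.sum_const, Finset.card_univ, Fintype.card_fin, nsmul_eq_mul]
  rw [e3, ← Finset.sum_add_distrib]
  refine (norm_sum_le _ _).trans (Finset.sum_le_sum fun i _ => ?_)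
  refine (norm_add_le _ _).trans (add_le_add ?_ ?_)
  · rw [norm_div, norm_one]
  · rw [norm_div, RCLike.norm_conj]
    exact div_le_div₀ hR'0.le (hρ i).1 hRr (hden' i)

/-- the integral of the Cauchy kernel -/
theorem lint_cauchy {x : ℝ} (hx : 0 < x) (b : ℝ) :
    ∫⁻ t : ℝ, ENNReal.ofReal (1 / (x ^ 2 + (t - b) ^ 2)) = ENNReal.ofReal (Real.pi / x) := by
  have h0 : ∫⁻ t : ℝ, ENNReal.ofReal (1 / (x ^ 2 + (t - b) ^ 2)) =
      ∫⁻ t : ℝ, ENNReal.ofReal (1 / (x ^ 2 + t ^ 2)) :=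
    lintegral_sub_right_eq_self (fun t : ℝ => ENNReal.ofReal (1 / (x ^ 2 + t ^ 2))) b
  have h1 : Integrable (fun t : ℝ => (1 + t ^ 2)⁻¹) := integrable_inv_one_add_sq
  have h2 : Integrable (fun t : ℝ => (1 + (t / x) ^ 2)⁻¹) := h1.comp_div hx.ne'
  have h3 : ∀ t : ℝ, 1 / (x ^ 2 + t ^ 2) = 1 / x ^ 2 * (1 + (t / x) ^ 2)⁻¹ := by
    intro t
    have : 0 < x ^ 2 + t ^ 2 := by positivity
    field_simp
  have h4 : ∫ t : ℝ, 1 / (x ^ 2 + t ^ 2) = Real.pi / x := by
    simp_rw [h3]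
    rw [integral_const_mul, Measure.integral_comp_div (fun t : ℝ => (1 + t ^ 2)⁻¹),
      integral_univ_inv_one_add_sq, abs_of_pos hx, smul_eq_mul]
    field_simp
  rw [h0, ← h4, ofReal_integral_eq_lintegral_ofReal]
  · simp_rw [h3]
    exact h2.const_mul _
  · exact Eventually.of_forall fun t => by positivity

/-- **Local square means.** -/
theorem local_dL2 {η a : ℝ} (hη : 0 < η) (hη1 : η ≤ 1) (ha : 1 ≤ a) :
    ∃ K : ℝ, 0 ≤ K ∧ ∀ (F L : ℂ → ℂ) (T M m : ℝ), 1 ≤ M → 0 ≤ m →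
      (∀ s : ℂ, -η < s.re → DifferentiableAt ℂ F s) →
      (∀ s : ℂ, -η < s.re → ‖s - (a + T * I)‖ ≤ a + η → ‖F s‖ ≤ M) →
      (∀ s : ℂ, 0 < s.re → exp (L s) = F s) →
      |(L (a + T * I)).re| ≤ m →
      ∀ x : ℝ, 0 < x → x ≤ 1 →
        ∫⁻ t in Icc (T - η / 4) (T + η / 4), ‖deriv F (x + t * I) / F (x + t * I)‖ₑ ^ 2 ≤
          ENNReal.ofReal (K * (1 + m + Real.log M) ^ 2 / x) := by
  set r : ℝ := a + η / 4 with hr
  set r₂ : ℝ := a + 3 * η / 8 with hr₂
  set R' : ℝ := a + η / 2 with hR'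
  set R : ℝ := a + 3 * η / 4 with hR
  set R₁ : ℝ := a + η with hR₁
  have h1 : a < r := by linarith
  have h2 : r < r₂ := by linarith
  have h2' : r₂ < R' := by linarith
  have h3 : R' < R := by linarith
  have h4 : R < R₁ := by linarith
  have hR0 : 0 < R := by linarith
  set c0 : ℝ := 1 / Real.log (R / R') with hc0
  have hlogpos : 0 < Real.log (R / R') := by
    apply Real.log_pos
    rw [lt_div_iff₀ (by linarith)]
    linarith
  have hc0pos : 0 < c0 := by positivity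
  have hRr : 0 < R ^ 2 - R' * r := by nlinarith
  set c1 : ℝ := R' / (R ^ 2 - R' * r) with hc1
  have hc1pos : 0 ≤ c1 := div_nonneg (by linarith) hRr.le
  set c2 : ℝ := 2 * r₂ / (R' - r₂) / (r₂ - r) with hc2
  have hc2pos : 0 ≤ c2 := div_nonneg (div_nonneg (by linarith) (by linarith)) (by linarith)
  set P0 : ℝ := c0 * c1 + c2 with hP0
  have hP0pos : 0 ≤ P0 := by positivity
  have hpi := Real.pi_pos
  refine ⟨η * P0 ^ 2 + 2 * Real.pi * c0 ^ 2, by positivity, ?_⟩
  intro F L T M m hM hm hF hFM hexp hLm x hx hx1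
  set c : ℂ := a + T * I with hc
  have hcre : c.re = a := by simp [hc]
  have hcim : c.im = T := by simp [hc]
  have hlogM : 0 ≤ Real.log M := Real.log_nonneg hM
  set Λ : ℝ := 1 + m + Real.log M with hΛ
  have hΛ1 : 1 ≤ Λ := by linarith
  obtain ⟨n, ρ, hn, hρ, hb⟩ := disc_deriv (M := M) (m := m) (f := fun z => F (c + z))
    (l := fun z => L (c + z)) ha h1 h2 h2' h3 h4 (by
      intro z hz
      have h5 : ‖z‖ < R₁ := mem_ball_zero_iff.1 hz
      have h6 : -η < (c + z).re := by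
        rw [add_re, hcre]
        have h7 := (abs_le.1 (abs_re_le_norm z)).1
        linarith
      exact ((hF _ h6).comp z (by fun_prop)).differentiableWithinAt) (by
      intro z hz
      have h6 : -η < (c + z).re := by
        rw [add_re, hcre]
        have h7 := (abs_le.1 (abs_re_le_norm z)).1
        linarith
      refine hFM _ h6 ?_
      rw [add_sub_cancel_left]
      linarith) (by
      intro z hz
      have h6 : 0 < (c + z).re := by
        rw [add_re, hcre]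
        linarith
      exact hexp _ h6) (by simpa using hLm)
  -- the number of the zeros
  have hn2 : (n : ℝ) ≤ c0 * Λ := by
    rw [hc0, one_div, inv_mul_eq_div, le_div_iff₀ hlogpos]
    linarith
  set P : ℝ := n * c1 + c2 * (Real.log M + m + 1) with hP
  have hP1 : P ≤ P0 * Λ := by
    have h5 : (n : ℝ) * c1 ≤ c0 * Λ * c1 := mul_le_mul_of_nonneg_right hn2 hc1pos
    have h7 : c2 * (Real.log M + m + 1) = c2 * Λ := by
      rw [hΛ]
      ring
    rw [hP, hP0, h7]
    nlinarith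
  have hPpos : 0 ≤ P := by positivity
  -- the pointwise bound
  have hpt : ∀ t ∈ Icc (T - η / 4) (T + η / 4),
      ‖deriv F (x + t * I) / F (x + t * I)‖ ^ 2 ≤ 2 * P ^ 2 +
        ∑ i, 2 * n * (1 / (x ^ 2 + (t - (T + (ρ i).im)) ^ 2)) := by
    intro t ht
    set z : ℂ := (x - a : ℝ) + ((t - T : ℝ) : ℂ) * I with hz
    have hzre : z.re = x - a := by simp [hz]
    have hzim : z.im = t - T := by simp [hz]
    have hcz : c + z = x + t * I := by
      rw [hc, hz]
      push_cast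
      ring
    have h5 : ‖z‖ ≤ r := by
      have h6 : ‖z‖ ^ 2 ≤ r ^ 2 := by
        rw [← normSq_eq_norm_sq, normSq_apply, hzre, hzim]
        have h7 : |t - T| ≤ η / 4 := abs_le.2 ⟨by linarith [ht.1], by linarith [ht.2]⟩
        have h8 : (t - T) * (t - T) ≤ (η / 4) * (η / 4) := by
          rw [← abs_mul_abs_self (t - T)]
          exact mul_self_le_mul_self (abs_nonneg _) h7
        have h9 : (x - a) * (x - a) ≤ a * a := by nlinarith
        rw [hr]
        nlinarith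
      exact (pow_le_pow_iff_left₀ (norm_nonneg _) (by linarith) two_ne_zero).1 h6
    have h6 := hb z (by rw [hzre]; linarith) h5
    have hdc : deriv (fun z => F (c + z)) z = deriv F (c + z) := by
      rw [deriv_comp_const_add]
    rw [hdc] at h6
    simp only [hcz] at h6
    set q : Fin n → ℝ := fun i => 1 / ‖z - ρ i‖ with hq
    have h7 : ‖deriv F (x + t * I) / F (x + t * I)‖ ≤ P + ∑ i, q i := by
      refine h6.trans (le_of_eq ?_)
      rw [hP, hc2]
      ring
    have h8 : ‖deriv F (x + t * I) / F (x + t * I)‖ ^ 2 ≤ (P + ∑ i, q i) ^ 2 :=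
      pow_le_pow_left₀ (norm_nonneg _) h7 2
    have h9 : (∑ i, q i) ^ 2 ≤ n * ∑ i, q i ^ 2 := by
      have h10 := sq_sum_le_card_mul_sum_sq (s := (Finset.univ : Finset (Fin n))) (f := q)
      rwa [Finset.card_univ, Fintype.card_fin] at h10
    have h10 : ∀ i, q i ^ 2 ≤ 1 / (x ^ 2 + (t - (T + (ρ i).im)) ^ 2) := by
      intro i
      simp only [hq]
      rw [div_pow, one_pow]
      apply one_div_le_one_div_of_le (by positivity)
      rw [← normSq_eq_norm_sq, normSq_apply, sub_re, sub_im, hzre, hzim]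
      have e1 : x ≤ x - a - (ρ i).re := by linarith [(hρ i).2]
      have e2 := mul_self_le_mul_self hx.le e1
      have e3 : (t - T - (ρ i).im) * (t - T - (ρ i).im) = (t - (T + (ρ i).im)) ^ 2 := by ring
      rw [e3, sq x]
      linarith
    have h11 : ∑ i, 2 * (n : ℝ) * (1 / (x ^ 2 + (t - (T + (ρ i).im)) ^ 2)) =
        2 * ((n : ℝ) * ∑ i, 1 / (x ^ 2 + (t - (T + (ρ i).im)) ^ 2)) := by
      rw [← Finset.mul_sum]
      ring
    rw [h11]
    have h12 : (n : ℝ) * ∑ i, q i ^ 2 ≤ n * ∑ i, 1 / (x ^ 2 + (t - (T + (ρ i).im)) ^ 2) :=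
      mul_le_mul_of_nonneg_left (Finset.sum_le_sum fun i _ => h10 i) (Nat.cast_nonneg _)
    have h13 : (P + ∑ i, q i) ^ 2 ≤ 2 * P ^ 2 + 2 * (∑ i, q i) ^ 2 := by
      have h14 := sq_nonneg (P - ∑ i, q i)
      have h15 : (P + ∑ i, q i) ^ 2 = 2 * P ^ 2 + 2 * (∑ i, q i) ^ 2 - (P - ∑ i, q i) ^ 2 := by
        ring
      linarith
    linarith
  -- integration
  have hae : ∀ᵐ t : ℝ ∂(volume.restrict (Icc (T - η / 4) (T + η / 4))),
      ‖deriv F (x + t * I) / F (x + t * I)‖ₑ ^ 2 ≤ ENNReal.ofReal (2 * P ^ 2) +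
        ∑ i, ENNReal.ofReal (2 * n) *
          ENNReal.ofReal (1 / (x ^ 2 + (t - (T + (ρ i).im)) ^ 2)) := by
    filter_upwards [ae_restrict_mem measurableSet_Icc] with t ht2
    have h7 := hpt t ht2
    have h8 : ‖deriv F (x + t * I) / F (x + t * I)‖ₑ ^ 2 =
        ENNReal.ofReal (‖deriv F (x + t * I) / F (x + t * I)‖ ^ 2) := by
      rw [← ofReal_norm, ENNReal.ofReal_pow (norm_nonneg _)]
    rw [h8]
    refine (ENNReal.ofReal_le_ofReal h7).trans ?_
    rw [ENNReal.ofReal_add (by positivity) (Finset.sum_nonneg fun i _ => by positivity),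
      ENNReal.ofReal_sum_of_nonneg (fun i _ => by positivity)]
    refine add_le_add le_rfl (Finset.sum_le_sum fun i _ => ?_)
    rw [ENNReal.ofReal_mul (by positivity)]
  refine (lintegral_mono_ae hae).trans ?_
  rw [lintegral_add_left measurable_const, lintegral_const, lintegral_finset_sum _ (fun i _ => by
    fun_prop)]
  have hvol : (volume.restrict (Icc (T - η / 4) (T + η / 4))) Set.univ =
      ENNReal.ofReal (η / 2) := by
    rw [Measure.restrict_apply_univ, Real.volume_Icc]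
    congr 1
    ring
  rw [hvol]
  have hterm : ∀ i, ∫⁻ t in Icc (T - η / 4) (T + η / 4),
      ENNReal.ofReal (2 * n) * ENNReal.ofReal (1 / (x ^ 2 + (t - (T + (ρ i).im)) ^ 2)) ≤
        ENNReal.ofReal (2 * n) * ENNReal.ofReal (Real.pi / x) := by
    intro i
    rw [lintegral_const_mul _ (by fun_prop)]
    refine mul_le_mul_right ?_ _
    rw [← lint_cauchy hx (T + (ρ i).im)]
    exact lintegral_mono' Measure.restrict_le_self le_rfl
  refine (add_le_add le_rfl (Finset.sum_le_sum fun i _ => hterm i)).trans ?_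
  rw [Finset.sum_const, Finset.card_univ, Fintype.card_fin, nsmul_eq_mul,
    ← ENNReal.ofReal_natCast, ← ENNReal.ofReal_mul (by positivity),
    ← ENNReal.ofReal_mul (by positivity), ← ENNReal.ofReal_mul (by positivity),
    ← ENNReal.ofReal_add (by positivity) (by positivity)]
  refine ENNReal.ofReal_le_ofReal ?_
  have h6 : P ^ 2 ≤ P0 ^ 2 * Λ ^ 2 := by
    rw [← mul_pow]
    exact pow_le_pow_left₀ hPpos hP1 2
  have h7 : (n : ℝ) ^ 2 ≤ c0 ^ 2 * Λ ^ 2 := by
    rw [← mul_pow]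
    exact pow_le_pow_left₀ (Nat.cast_nonneg _) hn2 2
  rw [le_div_iff₀ hx]
  have h9 : η * P ^ 2 ≤ η * (P0 ^ 2 * Λ ^ 2) := mul_le_mul_of_nonneg_left h6 hη.le
  have h10 : 2 * P ^ 2 * (η / 2) * x ≤ η * P ^ 2 := by
    have : 0 ≤ η * P ^ 2 := by positivity
    nlinarith
  have h11 : (n : ℝ) * (2 * n * (Real.pi / x)) * x = 2 * Real.pi * (n : ℝ) ^ 2 := by
    field_simp
  calc (2 * P ^ 2 * (η / 2) + (n : ℝ) * (2 * n * (Real.pi / x))) * x =
        2 * P ^ 2 * (η / 2) * x + (n : ℝ) * (2 * n * (Real.pi / x)) * x := by ring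
    _ ≤ η * (P0 ^ 2 * Λ ^ 2) + 2 * Real.pi * (c0 ^ 2 * Λ ^ 2) := by
        rw [h11]
        have := mul_le_mul_of_nonneg_left h7 (by positivity : 0 ≤ 2 * Real.pi)
        linarith
    _ = _ := by ring

end Pool.Agent.Q5.BP
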