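import Pool.Agent.Q5.BP.LogD

/-!
# Square means of the logarithmic derivative over the whole vertical lines
-/

set_option autoImplicit false

open MeasureTheory Filter Topology Set Complex
open scoped ENNReal
open Pool.Agent.TH270.MS (wq wq_meas avg_short wq_log_fin)

namespace Pool.Agent.Q5.BP

/-- the tail of the weight -/
noncomputable def tl (R : ℝ) : ℝ≥0∞ :=
  ∫⁻ T in {T : ℝ | R ≤ |T|}, wq T * ENNReal.ofReal ((1 + Real.log (1 + |T|)) ^ 2)

theorem tl_lt (R : ℝ) : tl R < ⊤ :=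
  lt_of_le_of_lt (lintegral_mono' Measure.restrict_le_self le_rfl) wq_log_fin

theorem meas_set (R : ℝ) : MeasurableSet {T : ℝ | R ≤ |T|} :=
  measurableSet_le measurable_const continuous_abs.measurable

theorem tl_tendsto : Tendsto tl atTop (𝓝 0) := by
  have hm : Measurable fun T : ℝ => wq T * ENNReal.ofReal ((1 + Real.log (1 + |T|)) ^ 2) :=
    wq_meas.mul (by fun_prop)
  have h0 : ∀ R : ℝ, tl R = ∫⁻ T : ℝ, {T : ℝ | R ≤ |T|}.indicator
      (fun T : ℝ => wq T * ENNReal.ofReal ((1 + Real.log (1 + |T|)) ^ 2)) T := by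
    intro R
    rw [lintegral_indicator (meas_set R)]
    rfl
  have h1 : ∫⁻ _ : ℝ, (0 : ℝ≥0∞) = 0 := by simp
  rw [← h1]
  have h2 : Tendsto (fun R : ℝ => ∫⁻ T : ℝ, {T : ℝ | R ≤ |T|}.indicator
      (fun T : ℝ => wq T * ENNReal.ofReal ((1 + Real.log (1 + |T|)) ^ 2)) T) atTop
      (𝓝 (∫⁻ _ : ℝ, (0 : ℝ≥0∞))) := by
    refine tendsto_lintegral_filter_of_dominated_convergence
      (fun T : ℝ => wq T * ENNReal.ofReal ((1 + Real.log (1 + |T|)) ^ 2))
      (Eventually.of_forall fun R => hm.indicator (meas_set R))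
      (Eventually.of_forall fun R => Eventually.of_forall fun T => indicator_le_self _ _ _)
      wq_log_fin.ne (Eventually.of_forall fun T => ?_)
    refine tendsto_const_nhds.congr' ?_
    filter_upwards [eventually_gt_atTop |T|] with R hR
    rw [indicator_of_notMem]
    simpa using hR
  refine h2.congr fun R => ?_
  rw [← h0]

/-- the logarithmic derivative on a vertical line -/
theorem dline {F : ℂ → ℂ} {η : ℝ} (hη : 0 < η)
    (hF : ∀ s : ℂ, -η < s.re → DifferentiableAt ℂ F s) (hne : ∀ s : ℂ, 0 < s.re → F s ≠ 0)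
    {x : ℝ} (hx : 0 < x) : Continuous fun t : ℝ => deriv F (x + t * I) / F (x + t * I) := by
  have hU : IsOpen {s : ℂ | -η < s.re} := isOpen_lt continuous_const Complex.continuous_re
  have hd : DifferentiableOn ℂ (deriv F) {s : ℂ | -η < s.re} :=
    DifferentiableOn.deriv (fun z hz => (hF z hz).differentiableWithinAt) hU
  rw [continuous_iff_continuousAt]
  intro t
  have h0 : 0 < ((x : ℂ) + t * I).re := by simpa using hx
  have h1 : -η < ((x : ℂ) + t * I).re := by linarith
  have h2 : ContinuousAt (fun s => deriv F s / F s) ((x : ℂ) + t * I) :=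
    (hd.differentiableAt (hU.mem_nhds h1)).continuousAt.div (hF _ h1).continuousAt (hne _ h0)
  exact ContinuousAt.comp (f := fun t : ℝ => (x : ℂ) + t * I) h2 (by fun_prop)

/-- **Global bound for the logarithmic derivative.** -/
theorem glob_dL2 {F L : ℂ → ℂ} {η a C B : ℝ} {κ : ℕ} (hη : 0 < η) (ha : 1 ≤ a) (hB : 0 ≤ B)
    (hF : ∀ s : ℂ, -η < s.re → DifferentiableAt ℂ F s)
    (hgrow : ∀ s : ℂ, -η < s.re → ‖F s‖ ≤ C * (1 + ‖s‖) ^ κ)
    (hexp : ∀ s : ℂ, 0 < s.re → exp (L s) = F s)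
    (hm : ∀ T : ℝ, |(L (a + T * I)).re| ≤ B * (1 + Real.log (1 + |T|))) :
    ∃ K : ℝ, 0 ≤ K ∧ ∀ R x : ℝ, 0 < x → x ≤ 1 →
      ∫⁻ t in {t : ℝ | R + 1 ≤ |t|}, ‖deriv F (x + t * I) / F (x + t * I)‖ₑ ^ 2 * wq t ≤
        ENNReal.ofReal (K / x) * tl R := by
  set η' : ℝ := min η 1 with hη'
  have hη'0 : 0 < η' := lt_min hη one_pos
  have hη'1 : η' ≤ 1 := min_le_right _ _
  have hη'η : η' ≤ η := min_le_left _ _
  obtain ⟨K₀, hK₀, hloc⟩ := local_dL2 hη'0 hη'1 ha
  set lc : ℝ := Real.log (|C| + 1) + κ * Real.log (2 * a + 2) with hlc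
  have hlc0 : 0 ≤ lc := by
    have e1 : 0 ≤ Real.log (|C| + 1) := Real.log_nonneg (by linarith [abs_nonneg C])
    have e2 : 0 ≤ Real.log (2 * a + 2) := Real.log_nonneg (by linarith)
    positivity
  set K₁ : ℝ := K₀ * (1 + B + (lc + κ)) ^ 2 with hK₁
  have hK₁0 : 0 ≤ K₁ := by positivity
  have hne : ∀ s : ℂ, 0 < s.re → F s ≠ 0 := fun s hs => by
    rw [← hexp s hs]
    exact exp_ne_zero _
  refine ⟨3 / (2 * (η' / 4)) * K₁, by positivity, fun R x hx hx1 => ?_⟩
  have hmeas : Measurable fun t : ℝ => ‖deriv F (x + t * I) / F (x + t * I)‖ₑ ^ 2 :=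
    ((dline hη hF hne hx).measurable.enorm).pow_const 2
  have key : ∀ T : ℝ, ∫⁻ t in Icc (T - η' / 4) (T + η' / 4),
      ‖deriv F (x + t * I) / F (x + t * I)‖ₑ ^ 2 ≤
      ENNReal.ofReal (K₁ * (1 + Real.log (1 + |T|)) ^ 2 / x) := by
    intro T
    have hT0 := abs_nonneg T
    have l0 : 0 ≤ Real.log (1 + |T|) := Real.log_nonneg (by linarith)
    set M : ℝ := (|C| + 1) * ((2 * a + 2) * (1 + |T|)) ^ κ with hM
    have hM1 : 1 ≤ M := by
      have e1 : 1 ≤ |C| + 1 := by linarith [abs_nonneg C]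
      have e2 : 1 ≤ ((2 * a + 2) * (1 + |T|)) ^ κ := one_le_pow₀ (by nlinarith)
      nlinarith
    have h1 := hloc F L T M (B * (1 + Real.log (1 + |T|))) hM1 (by positivity)
      (fun s hs => hF s (by linarith)) (fun s hs hs2 => ?_) hexp (hm T) x hx hx1
    · refine h1.trans (ENNReal.ofReal_le_ofReal ?_)
      have e1 : Real.log M = lc + κ * Real.log (1 + |T|) := by
        rw [hM, Real.log_mul (by positivity) (by positivity), Real.log_pow,
          Real.log_mul (by positivity) (by positivity), hlc]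
        ring
      rw [e1, hK₁, mul_assoc K₀, ← mul_pow]
      refine div_le_div_of_nonneg_right (mul_le_mul_of_nonneg_left ?_ hK₀) hx.le
      apply pow_le_pow_left₀ (by positivity)
      have e2 : 0 ≤ lc * Real.log (1 + |T|) := mul_nonneg hlc0 l0
      have e3 : (0 : ℝ) ≤ κ := Nat.cast_nonneg κ
      nlinarith
    · have e1 : ‖s‖ ≤ 2 * a + 1 + |T| := by
        have e2 : ‖s‖ ≤ ‖s - (a + T * I)‖ + ‖((a : ℂ) + T * I)‖ := by
          have := norm_add_le (s - ((a : ℂ) + T * I)) ((a : ℂ) + T * I)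
          simpa using this
        have e3 : ‖((a : ℂ) + T * I)‖ ≤ a + |T| := by
          refine (norm_add_le _ _).trans ?_
          rw [norm_mul, Complex.norm_I, mul_one, Complex.norm_real, Complex.norm_real,
            Real.norm_eq_abs, Real.norm_eq_abs, abs_of_nonneg (by linarith : 0 ≤ a)]
        linarith
      refine (hgrow s (by linarith)).trans ?_
      have e4 : C ≤ |C| + 1 := by linarith [le_abs_self C]
      have e5 : 1 + ‖s‖ ≤ (2 * a + 2) * (1 + |T|) := by nlinarith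
      calc C * (1 + ‖s‖) ^ κ ≤ (|C| + 1) * (1 + ‖s‖) ^ κ :=
            mul_le_mul_of_nonneg_right e4 (by positivity)
        _ ≤ M := by
          rw [hM]
          gcongr
  set f : ℝ → ℝ≥0∞ := {t : ℝ | R + 1 ≤ |t|}.indicator
    (fun t => ‖deriv F (x + t * I) / F (x + t * I)‖ₑ ^ 2) with hf
  have hfm : Measurable f := hmeas.indicator (meas_set _)
  set β : ℝ → ℝ≥0∞ := {T : ℝ | R ≤ |T|}.indicator
    (fun T => ENNReal.ofReal (K₁ / x) * ENNReal.ofReal ((1 + Real.log (1 + |T|)) ^ 2)) with hβ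
  have hfβ : ∀ T : ℝ, ∫⁻ t in Icc (T - η' / 4) (T + η' / 4), f t ≤ β T := by
    intro T
    by_cases hT : R ≤ |T|
    · rw [hβ, indicator_of_mem (show T ∈ {T : ℝ | R ≤ |T|} from hT),
        ← ENNReal.ofReal_mul (by positivity)]
      refine (lintegral_mono fun t => indicator_le_self _ _ _).trans ((key T).trans (le_of_eq ?_))
      congr 1
      ring
    · rw [hβ, indicator_of_notMem (show T ∉ {T : ℝ | R ≤ |T|} from hT)]
      have h1 : ∀ t ∈ Icc (T - η' / 4) (T + η' / 4), f t = 0 := by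
        intro t ht
        rw [hf, indicator_of_notMem]
        rw [Set.mem_ofPred_eq, not_le]
        have h2 : |t - T| ≤ η' / 4 := abs_le.2 ⟨by linarith [ht.1], by linarith [ht.2]⟩
        have h3 := abs_sub_abs_le_abs_sub t T
        push Not at hT
        linarith
      rw [setLIntegral_congr_fun measurableSet_Icc h1]
      simp
  have h2 := avg_short hfm (h := η' / 4) (by linarith) (by linarith) hfβ
  have h3 : ∫⁻ t : ℝ, f t * wq t =
      ∫⁻ t in {t : ℝ | R + 1 ≤ |t|}, ‖deriv F (x + t * I) / F (x + t * I)‖ₑ ^ 2 * wq t := by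
    rw [← lintegral_indicator (meas_set _)]
    refine lintegral_congr fun t => ?_
    by_cases ht : t ∈ {t : ℝ | R + 1 ≤ |t|}
    · rw [hf, indicator_of_mem ht, indicator_of_mem ht]
    · rw [hf, indicator_of_notMem ht, indicator_of_notMem ht, zero_mul]
  have h4 : ∫⁻ T : ℝ, wq T * β T = ENNReal.ofReal (K₁ / x) * tl R := by
    unfold tl
    rw [← lintegral_indicator (meas_set _), ← lintegral_const_mul' _ _ ENNReal.ofReal_ne_top]
    refine lintegral_congr fun T => ?_
    by_cases hT : T ∈ {t : ℝ | R ≤ |t|}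
    · rw [hβ, indicator_of_mem hT, indicator_of_mem hT]
      ring
    · rw [hβ, indicator_of_notMem hT, indicator_of_notMem hT, mul_zero, mul_zero]
  rw [h3, h4, ← mul_assoc, ← ENNReal.ofReal_mul (by positivity)] at h2
  refine h2.trans (le_of_eq ?_)
  congr 2
  ring

end Pool.Agent.Q5.BP
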