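import Pool.Agent.Q5.BP.Thm

/-!
# The exact mean square for the products over the primes
-/

set_option autoImplicit false

open MeasureTheory Filter Topology Set Complex
open scoped ENNReal
open Pool.Agent.TH270.MS (Mc DvR BM LI lmean lmean_zero int_inv one_le_log sharp_tail)
open Pool.Agent.TH942.ES (Sys)
open Pool.Agent.Q5.MS (Pv Sq bm_dvR bm_pv)

namespace Pool.Agent.Q5.BP

theorem bm_log : BM fun y => Real.log y := by
  refine ⟨Real.measurable_log.aestronglyMeasurable, fun Y => ⟨Real.log Y, fun y h1 h2 => ?_⟩⟩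
  have h3 := one_le_log h1
  rw [abs_of_nonneg (by linarith)]
  exact Real.log_le_log ((Real.exp_pos 1).trans_le h1) h2

/-- weighted square means of close functions -/
theorem sqm_of {f g : ℝ → ℝ} (hf : BM f) (hg : BM g)
    (h : Tendsto (fun y => f y - g y) atTop (𝓝 0)) {V : ℝ}
    (hV : Tendsto (fun Y : ℝ => (∫ y in Real.exp 1..Y, f y ^ 2 / y) / Real.log Y) atTop (𝓝 V)) :
    Tendsto (fun Y : ℝ => (∫ y in Real.exp 1..Y, g y ^ 2 / y) / Real.log Y) atTop (𝓝 V) := by
  have hd : BM fun y => (f y - g y) ^ 2 := (hf.sub hg).sq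
  have hd0 : Tendsto (fun y => (f y - g y) ^ 2) atTop (𝓝 0) := by
    have := h.pow 2
    rwa [zero_pow two_ne_zero] at this
  have hl := lmean_zero hd.li hd0
  rw [Metric.tendsto_nhds]
  intro ε hε
  set δ : ℝ := ε / (4 * (|V| + 1)) with hδ
  have hδ0 : 0 < δ := by positivity
  set K : ℝ := 1 + 1 / δ with hK
  have hK0 : 0 < K := by positivity
  have e1 := Metric.tendsto_nhds.1 hV (min (ε / 4) 1) (by positivity)
  have e2 := Metric.tendsto_nhds.1 hl (ε / (4 * K)) (by positivity)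
  filter_upwards [e1, e2, eventually_ge_atTop (Real.exp 1)] with Y h1 h2 hY
  have hlog := one_le_log hY
  have hlog0 : 0 < Real.log Y := by linarith
  have i1 := hf.sq.li.div Y hY
  have i2 := hg.sq.li.div Y hY
  have i3 := hd.li.abs.div Y hY
  have hpt : ∀ y ∈ Icc (Real.exp 1) Y, |g y ^ 2 / y - f y ^ 2 / y| ≤
      δ * (f y ^ 2 / y) + K * (|(f y - g y) ^ 2| / y) := by
    intro y hy
    have hy0 : 0 < y := (Real.exp_pos 1).trans_le hy.1
    rw [← sub_div, abs_div, abs_of_pos hy0, abs_of_nonneg (sq_nonneg (f y - g y))]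
    have h5 : |g y ^ 2 - f y ^ 2| ≤ δ * f y ^ 2 + K * (f y - g y) ^ 2 := by
      set c : ℝ := f y - g y with hc
      have h6 : g y = f y - c := by rw [hc]; ring
      rw [h6]
      have h7 : (f y - c) ^ 2 - f y ^ 2 = c ^ 2 - 2 * (f y * c) := by ring
      have h8 : 2 * |f y * c| ≤ δ * f y ^ 2 + 1 / δ * c ^ 2 := by
        have h9 : 0 ≤ (δ * |f y| - |c|) ^ 2 := sq_nonneg _
        have h10 : 2 * |f y * c| * δ ≤ (δ * f y ^ 2 + 1 / δ * c ^ 2) * δ := by
          have e : (δ * f y ^ 2 + 1 / δ * c ^ 2) * δ = (δ * |f y|) ^ 2 + |c| ^ 2 := by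
            rw [mul_pow, sq_abs, sq_abs]
            field_simp
          rw [e, abs_mul]
          nlinarith
        exact le_of_mul_le_mul_right h10 hδ0
      rw [h7, hK]
      have h11 := abs_sub (c ^ 2) (2 * (f y * c))
      rw [abs_of_nonneg (sq_nonneg c), abs_mul, abs_two] at h11
      nlinarith
    calc |g y ^ 2 - f y ^ 2| / y ≤ (δ * f y ^ 2 + K * (f y - g y) ^ 2) / y := by gcongr
      _ = _ := by ring
  have h3 : |(∫ y in Real.exp 1..Y, g y ^ 2 / y) - ∫ y in Real.exp 1..Y, f y ^ 2 / y| ≤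
      δ * (∫ y in Real.exp 1..Y, f y ^ 2 / y) +
        K * ∫ y in Real.exp 1..Y, |(f y - g y) ^ 2| / y := by
    rw [← intervalIntegral.integral_sub i2 i1, ← intervalIntegral.integral_const_mul,
      ← intervalIntegral.integral_const_mul, ← intervalIntegral.integral_add (i1.const_mul _)
        (i3.const_mul _)]
    refine (intervalIntegral.abs_integral_le_integral_abs hY).trans ?_
    exact intervalIntegral.integral_mono_on hY (i2.sub i1).abs
      ((i1.const_mul _).add (i3.const_mul _)) hpt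
  set IF : ℝ := ∫ y in Real.exp 1..Y, f y ^ 2 / y
  set IG : ℝ := ∫ y in Real.exp 1..Y, g y ^ 2 / y
  set ID : ℝ := ∫ y in Real.exp 1..Y, |(f y - g y) ^ 2| / y with hID
  have h4 : |IF / Real.log Y - V| < min (ε / 4) 1 := h1
  have h4a : |IF / Real.log Y - V| < ε / 4 := h4.trans_le (min_le_left _ _)
  have h4b : IF / Real.log Y ≤ |V| + 1 := by
    have h5 : |IF / Real.log Y - V| < 1 := h4.trans_le (min_le_right _ _)
    have h6 := (abs_lt.1 h5).2
    have h7 := le_abs_self V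
    linarith
  have h2' : ID / Real.log Y < ε / (4 * K) := by
    have h5 : |ID / Real.log Y - 0| < ε / (4 * K) := h2
    rw [sub_zero] at h5
    exact (le_abs_self _).trans_lt h5
  show |IG / Real.log Y - V| < ε
  have h5 : |IG / Real.log Y - IF / Real.log Y| ≤ δ * (IF / Real.log Y) +
      K * (ID / Real.log Y) := by
    rw [← sub_div, abs_div, abs_of_pos hlog0]
    calc |IG - IF| / Real.log Y ≤ (δ * IF + K * ID) / Real.log Y := by gcongr
      _ = _ := by ring
  have h6 : δ * (IF / Real.log Y) ≤ δ * (|V| + 1) := mul_le_mul_of_nonneg_left h4b hδ0.le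
  have h7 : δ * (|V| + 1) = ε / 4 := by
    rw [hδ]
    have : |V| + 1 ≠ 0 := by positivity
    field_simp
  have h8 : K * (ID / Real.log Y) ≤ K * (ε / (4 * K)) := mul_le_mul_of_nonneg_left h2'.le hK0.le
  have h9 : K * (ε / (4 * K)) = ε / 4 := by field_simp
  have h10 := abs_sub_le (IG / Real.log Y) (IF / Real.log Y) V
  linarith

theorem sqm_iff {f g : ℝ → ℝ} (hf : BM f) (hg : BM g)
    (h : Tendsto (fun y => f y - g y) atTop (𝓝 0)) {V : ℝ} :
    Tendsto (fun Y : ℝ => (∫ y in Real.exp 1..Y, f y ^ 2 / y) / Real.log Y) atTop (𝓝 V) ↔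
    Tendsto (fun Y : ℝ => (∫ y in Real.exp 1..Y, g y ^ 2 / y) / Real.log Y) atTop (𝓝 V) := by
  refine ⟨sqm_of hf hg h, sqm_of hg hf ?_⟩
  have := h.neg
  rw [neg_zero] at this
  refine this.congr fun y => ?_
  ring

/-- bounded square means -/
theorem bsq_of {f g : ℝ → ℝ} (hf : BM f) (hg : BM g)
    (h : Tendsto (fun y => f y - g y) atTop (𝓝 0))
    (hB : ∃ B : ℝ, ∀ᶠ Y : ℝ in atTop, ∫ y in Real.exp 1..Y, f y ^ 2 / y ≤ B * Real.log Y) :
    ∃ B : ℝ, ∀ᶠ Y : ℝ in atTop, ∫ y in Real.exp 1..Y, g y ^ 2 / y ≤ B * Real.log Y := by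
  obtain ⟨B, hB⟩ := hB
  have hd : BM fun y => (f y - g y) ^ 2 := (hf.sub hg).sq
  have hd0 : Tendsto (fun y => (f y - g y) ^ 2) atTop (𝓝 0) := by
    have := h.pow 2
    rwa [zero_pow two_ne_zero] at this
  have hl := lmean_zero hd.li hd0
  refine ⟨2 * B + 2, ?_⟩
  filter_upwards [hB, hl.eventually (gt_mem_nhds one_pos), eventually_ge_atTop (Real.exp 1)]
    with Y h1 h2 hY
  have hlog := one_le_log hY
  have i1 := hf.sq.li.div Y hY
  have i2 := hg.sq.li.div Y hY
  have i3 := hd.li.abs.div Y hY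
  have h3 : ∫ y in Real.exp 1..Y, g y ^ 2 / y ≤
      2 * (∫ y in Real.exp 1..Y, f y ^ 2 / y) +
        2 * ∫ y in Real.exp 1..Y, |(f y - g y) ^ 2| / y := by
    rw [← intervalIntegral.integral_const_mul,
      ← intervalIntegral.integral_const_mul, ← intervalIntegral.integral_add (i1.const_mul _)
        (i3.const_mul _)]
    refine intervalIntegral.integral_mono_on hY i2
      ((i1.const_mul _).add (i3.const_mul _)) fun y hy => ?_
    have hy0 : 0 < y := (Real.exp_pos 1).trans_le hy.1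
    rw [abs_of_nonneg (sq_nonneg (f y - g y))]
    have h4 : g y ^ 2 ≤ 2 * f y ^ 2 + 2 * (f y - g y) ^ 2 := by
      nlinarith [sq_nonneg (2 * f y - g y)]
    calc g y ^ 2 / y ≤ (2 * f y ^ 2 + 2 * (f y - g y) ^ 2) / y := by gcongr
      _ = _ := by ring
  have h5 : (∫ y in Real.exp 1..Y, |(f y - g y) ^ 2| / y) / Real.log Y < 1 := h2
  rw [div_lt_one (by linarith)] at h5
  nlinarith

theorem bsq_iff {f g : ℝ → ℝ} (hf : BM f) (hg : BM g)
    (h : Tendsto (fun y => f y - g y) atTop (𝓝 0)) :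
    (∃ B : ℝ, ∀ᶠ Y : ℝ in atTop, ∫ y in Real.exp 1..Y, f y ^ 2 / y ≤ B * Real.log Y) ↔
    ∃ B : ℝ, ∀ᶠ Y : ℝ in atTop, ∫ y in Real.exp 1..Y, g y ^ 2 / y ≤ B * Real.log Y := by
  refine ⟨bsq_of hf hg h, bsq_of hg hf ?_⟩
  have := h.neg
  rw [neg_zero] at this
  refine this.congr fun y => ?_
  ring

/-- complex means of close functions -/
theorem cmean_of {f g : ℝ → ℝ} (hf : BM f) (hg : BM g)
    (h : Tendsto (fun y => f y - g y) atTop (𝓝 0)) (t : ℝ) {v : ℂ}
    (hv : Tendsto (fun Y : ℝ => (∫ y in Real.exp 1..Y, (f y : ℂ) * (y : ℂ) ^ (-(t * I)) / (y : ℂ)) /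
      (Real.log Y : ℂ)) atTop (𝓝 v)) :
    Tendsto (fun Y : ℝ => (∫ y in Real.exp 1..Y, (g y : ℂ) * (y : ℂ) ^ (-(t * I)) / (y : ℂ)) /
      (Real.log Y : ℂ)) atTop (𝓝 v) := by
  have hl := lmean_zero (hf.sub hg).li h
  have hint : ∀ {f : ℝ → ℝ}, BM f → ∀ Y : ℝ, Real.exp 1 ≤ Y →
      IntervalIntegrable (fun y : ℝ => (f y : ℂ) * (y : ℂ) ^ (-(t * I)) / (y : ℂ)) volume
        (Real.exp 1) Y := by
    intro f hf Y hY
    have h1 : IntervalIntegrable (fun y : ℝ => (f y : ℂ)) volume (Real.exp 1) Y := by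
      have h0 := hf.li Y hY
      rw [intervalIntegrable_iff] at h0 ⊢
      exact h0.ofReal
    have h2 : (fun y : ℝ => (f y : ℂ) * (y : ℂ) ^ (-(t * I)) / (y : ℂ)) =
        fun y : ℝ => ((y : ℂ) ^ (-(t * I)) / (y : ℂ)) * (f y : ℂ) := by
      funext y
      ring
    rw [h2]
    refine h1.continuousOn_mul ?_
    rw [uIcc_of_le hY]
    refine ContinuousOn.div ?_ Complex.continuous_ofReal.continuousOn fun y hy => ?_
    · refine ContinuousOn.cpow Complex.continuous_ofReal.continuousOn continuousOn_const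
        fun y hy => ?_
      left
      rw [Complex.ofReal_re]
      exact (Real.exp_pos 1).trans_le hy.1
    · have := (Real.exp_pos 1).trans_le hy.1
      exact_mod_cast this.ne'
  have h0 : Tendsto (fun Y : ℝ =>
      (∫ y in Real.exp 1..Y, (g y : ℂ) * (y : ℂ) ^ (-(t * I)) / (y : ℂ)) / (Real.log Y : ℂ) -
      (∫ y in Real.exp 1..Y, (f y : ℂ) * (y : ℂ) ^ (-(t * I)) / (y : ℂ)) / (Real.log Y : ℂ))
      atTop (𝓝 0) := by
    refine squeeze_zero_norm' ?_ hl
    filter_upwards [eventually_ge_atTop (Real.exp 1)] with Y hY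
    have hlog := one_le_log hY
    rw [← sub_div, ← intervalIntegral.integral_sub (hint hg Y hY) (hint hf Y hY), norm_div,
      Complex.norm_real, Real.norm_of_nonneg (by linarith)]
    unfold lmean
    refine div_le_div_of_nonneg_right ?_ (by linarith)
    refine (intervalIntegral.norm_integral_le_integral_norm hY).trans (le_of_eq ?_)
    refine intervalIntegral.integral_congr fun y hy => ?_
    rw [uIcc_of_le hY] at hy
    have hy0 : 0 < y := (Real.exp_pos 1).trans_le hy.1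
    simp only
    rw [← sub_div, ← sub_mul, ← Complex.ofReal_sub, norm_div, norm_mul, Complex.norm_real,
      Complex.norm_real, Real.norm_eq_abs, Real.norm_of_nonneg hy0.le,
      Complex.norm_cpow_eq_rpow_re_of_pos hy0, abs_sub_comm]
    simp
  have h1 := h0.add hv
  rw [zero_add] at h1
  refine h1.congr fun Y => ?_
  ring

/-! ### Euler products -/

variable {X : Type} {d : ℕ} {N : X → ℕ} {α : X → Fin d → ℂ} {Ψ G₀ : ℂ → ℂ} {k κ : ℕ} {η C : ℝ}

/-- the deviation of the product over the primes -/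
noncomputable def DvP (N : X → ℕ) (α : X → Fin d → ℂ) (ρ A c : ℝ) (Y : ℝ) : ℝ :=
  Pv N α Y + c - (ρ * (Real.eulerMascheroniConstant + Real.log (Real.log Y)) - Real.log A)

theorem bm_dvP (H : Mc N α Ψ G₀ k κ η C) (ρ A c : ℝ) : BM (DvP N α ρ A c) :=
  ((bm_pv H.E).add (BM.const c)).sub (((BM.const ρ).mul ((BM.const
    Real.eulerMascheroniConstant).add BM.loglog)).sub (BM.const (Real.log A)))

theorem dvP_close (E : Sys N α) (ρ A : ℝ) {c : ℝ}
    (hc : Tendsto (fun y : ℝ => Real.log y * (Sq N α y - c)) atTop (𝓝 0)) :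
    Tendsto (fun y : ℝ => Real.log y * DvR N α ρ A y - -(Real.log y * DvP N α ρ A c y)) atTop
      (𝓝 0) := by
  obtain ⟨K, hK⟩ := sharp_tail E
  have h1 : Tendsto (fun Y : ℝ => Real.log Y * (Pv N α Y + Pool.Agent.TH270.MS.Pl N α Y +
      Sq N α Y)) atTop (𝓝 0) := by
    have h2 : Tendsto (fun x : ℝ => |K| * (Real.log x * x ^ (-(1 / 12 : ℝ)))) atTop (𝓝 0) := by
      have h3 := (isLittleO_log_rpow_atTop (r := 1 / 12) (by norm_num)).tendsto_div_nhds_zero
      have h4 := h3.const_mul |K|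
      rw [mul_zero] at h4
      refine h4.congr' ?_
      filter_upwards [eventually_gt_atTop 0] with x hx
      rw [Real.rpow_neg hx.le]
      ring
    refine squeeze_zero_norm' ?_ h2
    filter_upwards [eventually_ge_atTop 1] with Y hY
    have h3 := hK Y hY
    have h4 := Real.log_nonneg hY
    have h5 : 0 ≤ Y ^ (-(1 / 12 : ℝ)) := Real.rpow_nonneg (by linarith) _
    rw [Real.norm_eq_abs, abs_mul, abs_of_nonneg h4]
    have h6 : |Pv N α Y + Pool.Agent.TH270.MS.Pl N α Y + Sq N α Y| ≤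
        |K| * Y ^ (-(1 / 12 : ℝ)) :=
      h3.trans (mul_le_mul_of_nonneg_right (le_abs_self K) h5)
    calc Real.log Y * _ ≤ Real.log Y * (|K| * Y ^ (-(1 / 12 : ℝ))) :=
          mul_le_mul_of_nonneg_left h6 h4
      _ = _ := by ring
  have h2 := h1.sub hc
  rw [sub_zero] at h2
  refine h2.congr fun y => ?_
  unfold DvR DvP
  ring

/-- **The exact mean square as a criterion**, products over the primes. -/
theorem prime_tfae (H : Mc N α Ψ G₀ k κ η C) (ρ : ℝ) {A : ℝ} (hA : 0 < A) {c : ℝ}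
    (hc : Tendsto (fun y : ℝ => Real.log y * (Sq N α y - c)) atTop (𝓝 0)) : List.TFAE [
    (∀ s : ℂ, 0 < s.re → Ψ s ≠ 0) ∧ ∃ m : ℤ, ρ = m ∧
      Tendsto (fun s => Ψ s / s ^ m) (𝓝[≠] 0) (𝓝 (A : ℂ)),
    ∃ B : ℝ, ∀ᶠ Y : ℝ in atTop,
      ∫ y in Real.exp 1..Y, (Real.log y * DvP N α ρ A c y) ^ 2 / y ≤ B * Real.log Y,
    ∃ V : ℝ, HasSum (fun t : ℝ => ((mu Ψ t : ℝ) / t) ^ 2) V ∧
      Tendsto (fun Y : ℝ => (∫ y in Real.exp 1..Y, (Real.log y * DvP N α ρ A c y) ^ 2 / y) /
        Real.log Y) atTop (𝓝 V)] := by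
  have t := mc_tfae H ρ hA
  have b1 : BM fun y => Real.log y * DvR N α ρ A y := bm_log.mul (bm_dvR H ρ A)
  have b2 : BM fun y => -(Real.log y * DvP N α ρ A c y) := (bm_log.mul (bm_dvP H ρ A c)).neg
  have hcl := dvP_close H.E ρ A hc
  tfae_have 1 ↔ 2 := by
    have h1 := t.out 0 1
    have h2 := bsq_iff b1 b2 hcl
    simp only [neg_sq] at h2
    exact h1.trans h2
  tfae_have 1 ↔ 3 := by
    have h1 := t.out 0 2
    refine h1.trans (exists_congr fun V => and_congr_right fun _ => ?_)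
    have h2 := sqm_iff b1 b2 hcl (V := V)
    simp only [neg_sq] at h2
    exact h2
  tfae_finish

/-- **The Fourier-Bohr coefficients**, products over the primes. -/
theorem prime_coeff (H : Mc N α Ψ G₀ k κ η C) (ρ A : ℝ) {c : ℝ}
    (hc : Tendsto (fun y : ℝ => Real.log y * (Sq N α y - c)) atTop (𝓝 0))
    (h : ∃ B : ℝ, ∀ᶠ Y : ℝ in atTop,
      ∫ y in Real.exp 1..Y, (Real.log y * DvR N α ρ A y) ^ 2 / y ≤ B * Real.log Y) (t : ℝ) :
    Tendsto (fun Y : ℝ => (∫ y in Real.exp 1..Y, ((-(Real.log y * DvP N α ρ A c y) : ℝ) : ℂ) *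
      (y : ℂ) ^ (-(t * I)) / (y : ℂ)) / (Real.log Y : ℂ)) atTop (𝓝 ((mu Ψ t : ℂ) * I / t)) :=
  cmean_of (bm_log.mul (bm_dvR H ρ A)) (bm_log.mul (bm_dvP H ρ A c)).neg
    (dvP_close H.E ρ A hc) t (mc_coeff H ρ A h t)

end Pool.Agent.Q5.BP
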