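import Pool.Agent.Q5.BP.Approx

/-!
# Approximation by trigonometric polynomials in square mean: the function
-/

set_option autoImplicit false

open MeasureTheory Filter Topology Set Complex
open scoped ENNReal

namespace Pool.Agent.Q5.BP

variable {h : ℝ → ℂ} {F : ℂ → ℂ} {p κ : ℕ} {η C a B : ℝ} {κ₀ : ℂ}

/-- the trigonometric polynomial `∑_{τ ∈ Z} m_τ/(iτ) e^{iτu}` -/
noncomputable def Pz (F : ℂ → ℂ) (Z : Finset ℝ) (u : ℝ) : ℂ :=
  ∑ τ ∈ Z, (mu F τ / (τ * I)) * exp (τ * I * u)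

theorem pz_cont (F : ℂ → ℂ) (Z : Finset ℝ) : Continuous (Pz F Z) := by
  unfold Pz
  fun_prop

theorem step_eq (τ x u : ℝ) : (Ioi (0 : ℝ)).indicator (fun u : ℝ => exp (τ * I * u)) u *
    exp (-((x : ℂ) * u)) = (Ioi (0 : ℝ)).indicator (fun u : ℝ => exp ((τ * I - x) * u)) u := by
  by_cases hu : u ∈ Ioi (0 : ℝ)
  · rw [indicator_of_mem hu, indicator_of_mem hu, ← exp_add]
    congr 1
    ring
  · rw [indicator_of_notMem hu, indicator_of_notMem hu, zero_mul]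

theorem step_eq' (τ : ℝ) (s : ℂ) (u : ℝ) :
    (Ioi (0 : ℝ)).indicator (fun u : ℝ => exp (τ * I * u)) u *
    exp (-(s * u)) = (Ioi (0 : ℝ)).indicator (fun u : ℝ => exp ((τ * I - s) * u)) u := by
  by_cases hu : u ∈ Ioi (0 : ℝ)
  · rw [indicator_of_mem hu, indicator_of_mem hu, ← exp_add]
    congr 1
    ring
  · rw [indicator_of_notMem hu, indicator_of_notMem hu, zero_mul]

theorem step_int (τ : ℝ) {s : ℂ} (hs : 0 < s.re) : Integrable fun u : ℝ =>
    (Ioi (0 : ℝ)).indicator (fun u : ℝ => exp (τ * I * u)) u * exp (-(s * u)) := by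
  simp_rw [step_eq']
  rw [integrable_indicator_iff measurableSet_Ioi]
  refine integrableOn_exp_mul_complex_Ioi ?_ 0
  simp [hs]

theorem step_integral (τ : ℝ) {s : ℂ} (hs : 0 < s.re) :
    ∫ u : ℝ, (Ioi (0 : ℝ)).indicator (fun u : ℝ => exp (τ * I * u)) u * exp (-(s * u)) =
      1 / (s - τ * I) := by
  simp_rw [step_eq']
  rw [integral_indicator measurableSet_Ioi, integral_exp_mul_complex_Ioi (by simp [hs])]
  have h1 : (τ : ℂ) * I - s ≠ 0 := by
    intro h0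
    have : ((τ : ℂ) * I - s).re = 0 := by rw [h0]; simp
    simp at this
    linarith
  have h2 : s - τ * I ≠ 0 := by
    intro h0
    apply h1
    linear_combination -h0
  simp only [Complex.ofReal_zero, mul_zero, Complex.exp_zero]
  field_simp
  ring

theorem step_memLp (τ : ℝ) {x : ℝ} (hx : 0 < x) : MemLp (fun u : ℝ =>
    (Ioi (0 : ℝ)).indicator (fun u : ℝ => exp (τ * I * u)) u * exp (-((x : ℂ) * u))) 2 := by
  refine MemLp.mono (exp_memLp hx) (step_int τ (by simpa using hx)).aestronglyMeasurable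
    (Eventually.of_forall fun u => ?_)
  rw [step_eq]
  by_cases hu : u ∈ Ioi (0 : ℝ)
  · rw [indicator_of_mem hu, indicator_of_mem hu, Complex.norm_exp,
      Real.norm_of_nonneg (Real.exp_pos _).le]
    apply Real.exp_le_exp.2
    simp
  · rw [indicator_of_notMem hu, indicator_of_notMem hu, norm_zero]
    exact norm_nonneg _

/-- the error of the approximation, on the half line -/
noncomputable def Ef (h : ℝ → ℂ) (F : ℂ → ℂ) (Z : Finset ℝ) (u : ℝ) : ℂ :=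
  (u : ℂ) * h u - ∑ τ ∈ Z, (mu F τ / (τ * I)) *
    (Ioi (0 : ℝ)).indicator (fun u : ℝ => exp (τ * I * u)) u

theorem ef_pos (h : ℝ → ℂ) (F : ℂ → ℂ) (Z : Finset ℝ) {u : ℝ} (hu : 0 < u) :
    Ef h F Z u = u * h u - Pz F Z u := by
  unfold Ef Pz
  congr 1
  refine Finset.sum_congr rfl fun τ _ => ?_
  rw [indicator_of_mem (show u ∈ Ioi (0 : ℝ) from hu)]

theorem ef_mul (h : ℝ → ℂ) (F : ℂ → ℂ) (Z : Finset ℝ) (s : ℂ) (u : ℝ) :
    Ef h F Z u * exp (-(s * u)) = (u : ℂ) * h u * exp (-(s * u)) - ∑ τ ∈ Z, (mu F τ / (τ * I)) *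
      ((Ioi (0 : ℝ)).indicator (fun u : ℝ => exp (τ * I * u)) u * exp (-(s * u))) := by
  unfold Ef
  rw [sub_mul, Finset.sum_mul]
  congr 1
  refine Finset.sum_congr rfl fun τ _ => ?_
  ring

theorem Bp.ef_int (Q : Bp h F p κ η C a B κ₀) (Z : Finset ℝ) {s : ℂ} (hs : 0 < s.re) :
    Integrable fun u : ℝ => Ef h F Z u * exp (-(s * u)) := by
  simp_rw [ef_mul]
  exact (Q.H.int_mul hs).sub (integrable_finset_sum _ fun τ _ => (step_int τ hs).const_mul _)

theorem Bp.ef_la (Q : Bp h F p κ η C a B κ₀) (Z : Finset ℝ) {s : ℂ} (hs : 0 < s.re) :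
    La (Ef h F Z) s = -Dz h F Z s := by
  have h1 : La (Ef h F Z) s = ∫ u : ℝ, ((u : ℂ) * h u * exp (-(s * u)) -
      ∑ τ ∈ Z, (mu F τ / (τ * I)) *
      ((Ioi (0 : ℝ)).indicator (fun u : ℝ => exp (τ * I * u)) u * exp (-(s * u)))) := by
    unfold La
    exact integral_congr_ae (Eventually.of_forall fun u => ef_mul h F Z s u)
  rw [h1, integral_sub (Q.H.int_mul hs)
    (integrable_finset_sum _ fun τ _ => (step_int τ hs).const_mul _),
    integral_finset_sum _ fun τ _ => (step_int τ hs).const_mul _]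
  have h2 : ∫ u : ℝ, (u : ℂ) * h u * exp (-(s * u)) = -deriv (La h) s := by
    rw [(Q.H.deriv hs).deriv, neg_neg]
    rfl
  rw [h2]
  unfold Dz
  rw [neg_add, sub_eq_add_neg]
  congr 2
  refine Finset.sum_congr rfl fun τ _ => ?_
  rw [integral_const_mul, step_integral τ hs]
  ring

theorem Bp.ef_memLp (Q : Bp h F p κ η C a B κ₀) (Z : Finset ℝ) {x : ℝ} (hx : 0 < x) :
    MemLp (fun u : ℝ => Ef h F Z u * exp (-((x : ℂ) * u))) 2 := by
  simp_rw [ef_mul]
  have h1 : MemLp (fun u : ℝ => (u : ℂ) * h u * exp (-((x : ℂ) * u))) 2 := by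
    refine MemLp.mono (Q.H.sq.norm.const_mul (2 / x))
      (Q.H.int_mul (s := (x : ℂ)) (by simpa using hx)).aestronglyMeasurable
      (Eventually.of_forall fun u => ?_)
    rw [norm_mul, norm_mul, norm_exp_neg', Complex.ofReal_re, Complex.norm_real]
    rcases le_or_gt u 0 with hu | hu
    · rw [Q.H.zero u hu]
      simp
    · rw [Real.norm_of_nonneg hu.le, norm_mul, norm_norm, Real.norm_of_nonneg (by positivity)]
      have h2 := mul_exp_le hx hu
      have h3 : Real.exp (-(x / 2 * u)) ≤ 1 := by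
        rw [Real.exp_le_one_iff]
        have := mul_pos hx hu
        linarith
      have h4 : u * Real.exp (-(x * u)) ≤ 2 / x := by
        have : 0 < 2 / x := by positivity
        nlinarith
      have h5 := mul_le_mul_of_nonneg_right h4 (norm_nonneg (h u))
      calc u * ‖h u‖ * Real.exp (-(x * u)) = u * Real.exp (-(x * u)) * ‖h u‖ := by ring
        _ ≤ _ := h5
  exact h1.sub (memLp_finset_sum _ fun τ _ => (step_memLp τ hx).const_mul _)

/-- **Approximation in square mean.** -/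
theorem Bp.approx (Q : Bp h F p κ η C a B κ₀) : ∃ K : ℝ, 0 ≤ K ∧ ∀ (R : ℝ) (Z : Finset ℝ),
    1 ≤ R → (∀ τ ∈ Z, τ ≠ 0) → (∀ τ ∈ Z, |τ| < R) →
    (∀ τ : ℝ, |τ| ≤ R → τ ≠ 0 → F (τ * I) = 0 → τ ∈ Z) →
    ∃ M : ℝ≥0∞, M ≠ ⊤ ∧ ∀ T : ℝ, 1 ≤ T →
      ∫⁻ u in Ioc 0 T, ‖(u : ℂ) * h u - Pz F Z u‖ₑ ^ 2 ≤
        M + ENNReal.ofReal (K * T) * tl (R - 1) := by
  obtain ⟨K, hK0, hK⟩ := Q.line_int
  set e2 : ℝ := Real.exp 2 * (1 / (2 * Real.pi)) with he2
  have hpi := Real.pi_pos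
  have he20 : 0 < e2 := by positivity
  refine ⟨e2 * K, by positivity, fun R Z hR hZ0 hZR hZ => ?_⟩
  obtain ⟨M, hM0, hM⟩ := hK R Z hR hZ0 hZR hZ
  refine ⟨ENNReal.ofReal e2 * M, ENNReal.mul_ne_top ENNReal.ofReal_ne_top hM0, fun T hT => ?_⟩
  have hT0 : 0 < T := by linarith
  have hx : 0 < 1 / T := by positivity
  have hx1 : 1 / T ≤ 1 := by
    rw [div_le_one hT0]
    exact hT
  have hxc : 0 < (((1 / T : ℝ) : ℝ) : ℂ).re := by
    rw [Complex.ofReal_re]
    exact hx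
  have h1 := planch (f := Ef h F Z) (x := 1 / T) (Q.ef_int Z hxc) (Q.ef_memLp Z hx)
  have h2 : ∫⁻ t : ℝ, ‖La (Ef h F Z) (((1 / T : ℝ) : ℂ) + t * I)‖ₑ ^ 2 =
      ∫⁻ t : ℝ, ‖Dz h F Z (((1 / T : ℝ) : ℂ) + t * I)‖ₑ ^ 2 := by
    refine lintegral_congr fun t => ?_
    rw [Q.ef_la Z (by rw [line_re]; exact hx), enorm_neg]
  have h3 : ∫⁻ u in Ioc 0 T, ‖(u : ℂ) * h u - Pz F Z u‖ₑ ^ 2 ≤ ENNReal.ofReal (Real.exp 2) *
      ∫⁻ u : ℝ, ‖Ef h F Z u * exp (-(((1 / T : ℝ) : ℂ) * u))‖ₑ ^ 2 := by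
    rw [← lintegral_const_mul' _ _ ENNReal.ofReal_ne_top]
    refine le_trans ?_ (lintegral_mono' (Measure.restrict_le_self (s := Ioc (0 : ℝ) T)) le_rfl)
    refine setLIntegral_mono' measurableSet_Ioc fun u hu => ?_
    rw [← ef_pos h F Z hu.1, enorm_sq_of, enorm_sq_of, ← ENNReal.ofReal_mul (Real.exp_pos _).le]
    apply ENNReal.ofReal_le_ofReal
    rw [norm_mul, norm_exp_neg', Complex.ofReal_re, mul_pow, ← Real.exp_nat_mul]
    have h4 : 1 ≤ Real.exp 2 * Real.exp ((2 : ℕ) * -(1 / T * u)) := by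
      rw [← Real.exp_add]
      apply Real.one_le_exp
      push_cast
      have h5 : 1 / T * u ≤ 1 := by
        rw [one_div, inv_mul_le_iff₀ hT0, mul_one]
        exact hu.2
      linarith
    calc ‖Ef h F Z u‖ ^ 2 = ‖Ef h F Z u‖ ^ 2 * 1 := (mul_one _).symm
      _ ≤ ‖Ef h F Z u‖ ^ 2 * (Real.exp 2 * Real.exp ((2 : ℕ) * -(1 / T * u))) :=
        mul_le_mul_of_nonneg_left h4 (by positivity)
      _ = _ := by ring
  refine h3.trans ?_
  rw [h1, h2, ← mul_assoc, ← ENNReal.ofReal_mul (Real.exp_pos _).le]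
  refine (mul_le_mul_right (hM (1 / T) hx hx1) _).trans (le_of_eq ?_)
  rw [mul_add, ← mul_assoc, ← ENNReal.ofReal_mul he20.le]
  congr 3
  field_simp

end Pool.Agent.Q5.BP
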